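import Pool.Agent.X238.Ccj.Bwd
import Pool.Agent.X238.Mcs.Pcpi

set_option autoImplicit false
set_option linter.unnecessarySeqFocus false

/-!
# Undecidability of `c`-conjugacy
-/

namespace Pool.Agent.X238.Ccj

open Pool.Agent.X238.Mcs Relation

variable {A X : Type} {L : ℕ} {U V : A → Tp X L}

theorem uniq {S : Type} {a a' b b' : List S} {c : S} (h : a ++ c :: b = a' ++ c :: b')
    (hb : c ∉ b) (hb' : c ∉ b') : a = a' ∧ b = b' := by
  rcases List.append_eq_append_iff.1 h with ⟨m, h1, h2⟩ | ⟨m, h1, h2⟩
  · cases m with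
    | nil => exact ⟨by simpa using h1.symm, by simpa using h2⟩
    | cons d m =>
      simp only [List.cons_append, List.cons.injEq] at h2
      exact absurd (by rw [h2.2]; simp) hb
  · cases m with
    | nil => exact ⟨by simpa using h1, by simpa using h2.symm⟩
    | cons d m =>
      simp only [List.cons_append, List.cons.injEq] at h2
      exact absurd (by rw [h2.2]; simp) hb'

theorem ls_uniq {h h' : RH X L} : ∀ (st st' : List (LS X)) (g g' : List (Lt A X L)),
    st.map Lt.ls ++ Lt.rh h :: g = st'.map Lt.ls ++ Lt.rh h' :: g' → st = st' ∧ h = h' ∧ g = g' := by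
  intro st
  induction st with
  | nil =>
    intro st' g g' e
    cases st' with
    | nil => simpa using e
    | cons s st' => simp at e
  | cons s st ih =>
    intro st' g g' e
    cases st' with
    | nil => simp at e
    | cons s' st' =>
      simp only [List.map_cons, List.cons_append, List.cons.injEq, Lt.ls.injEq] at e
      obtain ⟨h1, h2, h3⟩ := ih _ _ _ e.2
      exact ⟨by rw [e.1, h1], h2, h3⟩

theorem irr_single (c : Lt A X L) : Irr (Sy U V) [c] := by
  rintro w ⟨a, b, x, y, h, e, -⟩
  have hl := rl_len (show Rl U V x y from h)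
  have := congrArg List.length e
  simp at this
  omega

theorem st_hat (w : List X) : ((ST w).map Lt.ls : List (Lt A X L)) = .ls .b :: hat w := by
  simp [ST, hat]

/-- the right part of the second word -/
def tt (w : List X) : List (Lt A X L) := .ls .b :: (hat w ++ [.rh .E0])

theorem irr_tt (w : List X) : Irr (Sy U V) (tt w) := by
  rintro v ⟨a, b, x, y, h, e, -⟩
  change Rl U V x y at h
  have hx : ∀ c ∈ x, (∃ s, c = Lt.ls s) ∨ c = Lt.rh .E0 := by
    intro c hc
    have : c ∈ (tt w : List (Lt A X L)) := by rw [e]; simp [hc]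
    simp only [tt, hat, List.mem_cons, List.mem_append, List.mem_map, List.not_mem_nil,
      or_false] at this
    rcases this with rfl | ⟨a, -, rfl⟩ | rfl
    · exact Or.inl ⟨_, rfl⟩
    · exact Or.inl ⟨_, rfl⟩
    · exact Or.inr rfl
  cases h with
  | rb hr =>
    rename_i s0 h0 h1
    have := hx (.rh h0) (by simp)
    rcases this with ⟨s, h1⟩ | h1
    · simp at h1
    · obtain rfl := Lt.rh.inj h1
      cases hr
  | _ => simp at hx

theorem startR_tt (w : List X) : StartR (tt w : List (Lt A X L)) :=
  ⟨_, _, rfl, Or.inr ⟨_, rfl⟩⟩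

theorem z_tt (w : List X) : (Lt.z : Lt A X L) ∉ tt w := by
  simp [tt, hat]

theorem wb_eq (w : List X) : (wb w : List (Lt A X L)) = [.lh .P0] ++ tt w := by
  simp [wb, tt]

theorem irr_wa : Irr (Sy U V) wa :=
  irr_append (u := [.lh .F0]) (v := [.rh .D0]) (irr_single _) (irr_single _)
    ⟨[], _, rfl, Or.inl ⟨_, rfl⟩⟩ ⟨_, [], rfl, Or.inl ⟨_, rfl⟩⟩

theorem irr_wb (w : List X) : Irr (Sy U V) (wb w) := by
  rw [wb_eq]
  exact irr_append (irr_single _) (irr_tt w) ⟨[], _, rfl, Or.inl ⟨_, rfl⟩⟩ (startR_tt w)

theorem sol_of {w : List X} {g : List (Lt A X L)} (hg : Irr (Sy U V) g) (zg : Lt.z ∉ g)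
    (h1 : Jn (Sy U V) (wa ++ g) (g ++ wb w)) (h2 : ¬ Jn (Sy U V) (wa ++ g) [.z]) :
    ∃ js, w ++ flt V js = flt U js := by
  obtain ⟨U0, hU, iU⟩ := exists_nf (lenred (U := U) (V := V)) (.rh .D0 :: g)
  obtain ⟨V0, hV, iV⟩ := exists_nf (lenred (U := U) (V := V)) (g ++ [.lh .P0])
  have hAU : To U V (wa ++ g) (.lh .F0 :: U0) := by
    have := steps_append hU [.lh .F0] []
    simpa [wa] using this
  have hBV : To U V (g ++ wb w) (V0 ++ tt w) := by
    have := steps_append hV [] (tt w)
    rw [wb_eq]
    simpa using this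
  have zU : Lt.z ∉ U0 := by
    intro hz
    exact h2 (jn_of (hAU.trans (to_z (by simp [hz]))))
  have zV : Lt.z ∉ V0 := by
    intro hz
    exact h2 (jn_trans conf h1 (jn_of (hBV.trans (to_z (by simp [hz])))))
  rcases run_right hg zg hU with hz | ⟨g1, g2, k1, st1, e1, eg1, i1⟩
  · exact absurd hz zU
  rcases run_left hg zg hV with hz | ⟨g1', g2', k2, st2, e2, eg2, i2⟩
  · exact absurd hz zV
  have sU : StartR U0 := by
    rw [e1]
    cases st1 with
    | nil => exact ⟨_, g2, rfl, Or.inl ⟨_, rfl⟩⟩
    | cons s st1 => exact ⟨_, _, rfl, Or.inr ⟨_, rfl⟩⟩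
  have eV : EndL V0 := by
    rw [e2]
    rcases List.eq_nil_or_concat' st2 with rfl | ⟨st2', s, rfl⟩
    · exact ⟨g1', .lh k2, by simp, Or.inl ⟨_, rfl⟩⟩
    · exact ⟨g1' ++ .lh k2 :: st2'.map .rs, .rs s, by simp, Or.inr ⟨_, rfl⟩⟩
  have irr1 : Irr (Sy U V) ([.lh .F0] ++ U0) :=
    irr_append (irr_single _) iU ⟨[], _, rfl, Or.inl ⟨_, rfl⟩⟩ sU
  have irr2 : Irr (Sy U V) (V0 ++ tt w) := irr_append iV (irr_tt w) eV (startR_tt w)
  have heq : [.lh .F0] ++ U0 = V0 ++ tt w :=
    irr_eq irr1 irr2 (jn_trans conf (jn_symm (jn_of hAU)) (jn_trans conf h1 (jn_of hBV)))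
  rw [e1, e2] at heq
  cases g1' with
  | cons c g1'' =>
    exfalso
    simp only [List.cons_append, List.nil_append, List.cons.injEq] at heq
    obtain ⟨rfl, -⟩ := heq
    apply h2
    rw [eg2]
    refine jn_of ?_
    have := to_z_head (U := U) (V := V) (a := [.lh .F0]) (b := g1'' ++ g2') .D0 .F0
    simpa [wa] using this
  | nil =>
    simp only [List.cons_append, List.nil_append, List.cons.injEq, Lt.lh.injEq] at heq
    obtain ⟨rfl, heq⟩ := heq
    obtain ⟨rfl, hF⟩ := i2
    simp only [List.nil_append] at eg2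
    subst eg2
    have h3 : st1.map Lt.ls ++ Lt.rh k1 :: g2 = (ST w).map Lt.ls ++ Lt.rh .E0 :: [] := by
      rw [heq, st_hat, tt]; simp
    obtain ⟨rfl, rfl, rfl⟩ := ls_uniq _ _ _ _ h3
    simp only [List.append_nil] at eg1
    subst eg1
    obtain ⟨g0, y, K, w', e3, hK, hst, hy⟩ := i1
    obtain ⟨g3, m, js, e4, hm, hl⟩ := hF
    obtain rfl : w = w' := by
      simp only [ST, List.cons.injEq, true_and] at hst
      exact List.map_injective_iff.2 (fun a b h => by simpa using h) hst
    have h4 : (g0 ++ [.rd .o, .rd .p] ++ raw y) ++ .rd .d :: (K ++ [.rd .o']) =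
        (g3 ++ [.rd .o] ++ m) ++ .rd .d :: (idx js ++ [.rd .q, .rd .o']) := by
      have := e3.symm.trans e4
      simpa using this
    have h5 := uniq h4 (by
      intro h
      rcases List.mem_append.1 h with h | h
      · rcases hK _ h with h | ⟨i, h⟩ <;> simp at h
      · simp at h) (by simp [idx])
    have h6 : g0 ++ .rd .o :: (.rd .p :: raw y) = g3 ++ .rd .o :: m := by
      simpa using h5.1
    have h7 := uniq h6 (by simp [raw]) (by
      intro h
      rcases hm _ h with h | ⟨i, h⟩ <;> simp at h)
    have h8 : K = idx js ++ [.rd .q] := by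
      have : K ++ [.rd .o'] = (idx js ++ [.rd .q]) ++ [.rd .o'] := by rw [h5.2]; simp
      exact (List.append_inj' this rfl).1
    have h9 : ixs K = js := by
      rw [h8]
      clear * -
      induction js with
      | nil => simp [ixs]
      | cons i js ih =>
        simp only [ixs, idx_cons, List.cons_append, List.filterMap_cons] at ih ⊢
        rw [ih]
    have h10 : ltr m = y := by
      rw [← h7.2]
      clear * -
      induction y with
      | nil => simp [ltr]
      | cons a y ih =>
        simp only [ltr, raw_cons, List.filterMap_cons] at ih ⊢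
        rw [ih]
    refine ⟨js, ?_⟩
    rw [← hl, h10, hy, h9]

theorem to_z_of_jn {u : List (Lt A X L)} (h : Jn (Sy U V) u [.z]) : To U V u [.z] := by
  obtain ⟨v, h1, h2⟩ := h
  rw [irr_steps irr_z h2] at h1
  exact h1

theorem cconj_inst (w : List X) :
    CConj (cls (Sy U V) wa) (cls (Sy U V) (wb w)) ↔ ∃ js, w ++ flt V js = flt U js := by
  have ha : ¬ Jn (Sy U V) wa [.z] := fun h => by
    have := irr_eq irr_wa irr_z h
    simp [wa] at this
  have hb : ¬ Jn (Sy U V) (wb w) [.z] := fun h => by
    have := irr_eq (irr_wb w) irr_z h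
    simp [wb] at this
  rw [cconj_iff conf (z := Lt.z) (fun c => ⟨.zl c, .zr c⟩) ha hb]
  constructor
  · rintro ⟨g, h, hg, hh, h1, h2⟩
    obtain ⟨g', hg', ig⟩ := exists_nf (lenred (U := U) (V := V)) g
    have e1 : Jn (Sy U V) (wa ++ g') (wa ++ g) :=
      jn_symm (jn_of (by simpa using steps_append hg' wa []))
    have e2 : Jn (Sy U V) (g ++ wb w) (g' ++ wb w) :=
      jn_of (by simpa using steps_append hg' [] (wb w))
    have nz : ¬ Jn (Sy U V) (wa ++ g') [.z] := by
      intro h3
      refine ha ?_
      have := hg [] (by simpa using jn_trans conf (jn_symm e1) h3)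
      simpa using this
    refine sol_of ig ?_ (jn_trans conf e1 (jn_trans conf h1 e2)) nz
    intro hz
    exact nz (jn_of (to_z (by simp [hz])))
  · rintro ⟨js, hjs⟩
    have r1 : To U V (wa ++ gw (flt U js) js) ([.lh .F0] ++ tt w) := by
      have := steps_append (run_g_right (U := U) (V := V) (w := w) (y := flt U js) (js := js)
        hjs.symm) [.lh .F0] []
      simpa [wa, tt] using this
    have r2 : To U V (gw (flt U js) js ++ wb w) ([.lh .F0] ++ tt w) := by
      have := steps_append (run_g_left (U := U) (V := V) (y := flt U js) (js := js) rfl) [] (tt w)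
      rw [wb_eq]
      simpa using this
    have r3 : To U V (wb w ++ hw w.length) ([.lh .P0] ++ [.rh .D0]) := by
      have := steps_append (run_h_right (U := U) (V := V) w) [.lh .P0] []
      simpa [wb] using this
    have r4 : To U V (hw w.length ++ wa) ([.lh .P0] ++ [.rh .D0]) := by
      have := steps_append (run_h_left (U := U) (V := V) w.length) [] [.rh .D0]
      simpa [wa] using this
    refine ⟨gw (flt U js) js, hw w.length, ?_, ?_, ⟨_, r1, r2⟩, ⟨_, r3, r4⟩⟩
    · intro m hm
      have h1 : To U V (m ++ wa ++ gw (flt U js) js) ((m ++ [.lh .F0]) ++ tt w) := by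
        have := steps_append r1 m []
        simpa using this
      have h2 := to_z_of_jn (jn_trans conf (jn_symm (jn_of h1)) hm)
      have h3 := split_z (irr_tt w) (startR_tt w) (z_tt w) ⟨m, _, rfl, Or.inl ⟨_, rfl⟩⟩ h2
      have h4 := steps_append h3 [] [.rh .D0]
      refine jn_of (.trans (b := [.z] ++ [.rh .D0]) ?_ (to_z (by simp)))
      simpa [wa] using h4
    · intro m hm
      have h1 : To U V (m ++ wb w ++ hw w.length) ((m ++ [.lh .P0]) ++ [.rh .D0]) := by
        have := steps_append r3 m []
        simpa using this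
      have h2 := to_z_of_jn (jn_trans conf (jn_symm (jn_of h1)) hm)
      have h3 := split_z (irr_single _) ⟨_, [], rfl, Or.inl ⟨_, rfl⟩⟩ (by simp)
        ⟨m, _, rfl, Or.inl ⟨_, rfl⟩⟩ h2
      have h4 := steps_append h3 [] (tt w)
      refine jn_of (.trans (b := [.z] ++ tt w) ?_ (to_z (by simp)))
      rw [wb_eq]
      simpa using h4

/-! ### change of the alphabet -/

section equiv

variable {S S' : Type} (e : S' ≃ S) (R : Set (List S × List S))

/-- the system over the other alphabet -/
def tr : Set (List S' × List S') := {p | (p.1.map e, p.2.map e) ∈ R}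

variable {R}

theorem step_tr {u v : List S'} : Step (tr e R) u v ↔ Step R (u.map e) (v.map e) := by
  constructor
  · rintro ⟨a, b, x, y, h, rfl, rfl⟩
    exact ⟨a.map e, b.map e, x.map e, y.map e, h, by simp, by simp⟩
  · rintro ⟨a, b, x, y, h, h1, h2⟩
    refine ⟨a.map e.symm, b.map e.symm, x.map e.symm, y.map e.symm, ?_, ?_, ?_⟩
    · change ((x.map e.symm).map e, (y.map e.symm).map e) ∈ R
      simpa using h
    · have := congrArg (List.map e.symm) h1
      simpa using this
    · have := congrArg (List.map e.symm) h2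
      simpa using this

theorem steps_tr {u v : List S'} : ReflTransGen (Step (tr e R)) u v ↔
    ReflTransGen (Step R) (u.map e) (v.map e) := by
  constructor
  · intro h
    exact ReflTransGen.lift (List.map e) (fun a b h => (step_tr e).1 h) _ _ h
  · intro h
    have h3 : ∀ a b, Step R a b → Step (tr e R) (a.map e.symm) (b.map e.symm) := by
      intro a b h
      have h1 : Step R ((a.map e.symm).map e) ((b.map e.symm).map e) := by simpa using h
      exact (step_tr e).2 h1
    have := ReflTransGen.lift (List.map e.symm) h3 _ _ h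
    simpa [Function.onFun] using this

theorem jn_tr {u v : List S'} : Jn (tr e R) u v ↔ Jn R (u.map e) (v.map e) := by
  constructor
  · rintro ⟨z, h1, h2⟩
    exact ⟨z.map e, (steps_tr e).1 h1, (steps_tr e).1 h2⟩
  · rintro ⟨z, h1, h2⟩
    refine ⟨z.map e.symm, (steps_tr e).2 ?_, (steps_tr e).2 ?_⟩
    · simpa using h1
    · simpa using h2

theorem conf_tr (hc : Confluent R) : Confluent (tr e R) := by
  intro u v w h1 h2
  exact (jn_tr e).2 (hc _ _ _ ((steps_tr e).1 h1) ((steps_tr e).1 h2))

theorem cconj_tr (hc : Confluent R) {z : S} (hz : ∀ c : S, ([z, c], [z]) ∈ R ∧ ([c, z], [z]) ∈ R)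
    {a b : List S'} (ha : ¬ Jn R (a.map e) [z]) (hb : ¬ Jn R (b.map e) [z]) :
    CConj (cls (tr e R) a) (cls (tr e R) b) ↔ CConj (cls R (a.map e)) (cls R (b.map e)) := by
  have hz' : ∀ c : S', ([e.symm z, c], [e.symm z]) ∈ tr e R ∧
      ([c, e.symm z], [e.symm z]) ∈ tr e R := by
    intro c
    constructor
    · change (_, _) ∈ R
      simpa using (hz (e c)).1
    · change (_, _) ∈ R
      simpa using (hz (e c)).2
  have ha' : ¬ Jn (tr e R) a [e.symm z] := by
    rw [jn_tr]; simpa using ha
  have hb' : ¬ Jn (tr e R) b [e.symm z] := by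
    rw [jn_tr]; simpa using hb
  rw [cconj_iff (conf_tr e hc) hz' ha' hb', cconj_iff hc hz ha hb]
  simp only [jn_tr, List.map_append, List.map_cons, List.map_nil, Equiv.apply_symm_apply]
  constructor
  · rintro ⟨g, h, h1, h2, h3, h4⟩
    refine ⟨g.map e, h.map e, fun m hm => ?_, fun m hm => ?_, h3, h4⟩
    · have := h1 (m.map e.symm)
      simp only [List.map_map, Equiv.self_comp_symm, List.map_id] at this
      exact this hm
    · have := h2 (m.map e.symm)
      simp only [List.map_map, Equiv.self_comp_symm, List.map_id] at this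
      exact this hm
  · rintro ⟨g, h, h1, h2, h3, h4⟩
    refine ⟨g.map e.symm, h.map e.symm, fun m hm => ?_, fun m hm => ?_, ?_, ?_⟩ <;>
      simp only [List.map_map, Equiv.self_comp_symm, List.map_id] at *
    · exact h1 _ hm
    · exact h2 _ hm
    · exact h3
    · exact h4

end equiv

theorem finite_rh [Finite X] : Finite (RH X L) := by
  have : Finite (Tp X L) := (List.finite_length_le X L).to_subtype
  refine Finite.of_injective (fun g : RH X L => match g with
    | .E t => (Sum.inl t : Tp X L ⊕ Fin 6)
    | .D0 => .inr 0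
    | .D => .inr 1
    | .E0 => .inr 2
    | .E2 => .inr 3
    | .E3 => .inr 4
    | .E4 => .inr 5) ?_
  intro a b h
  cases a <;> cases b <;> simp_all

theorem finite_lh [Finite X] : Finite (LH X L) := by
  have : Finite (Tp X L) := (List.finite_length_le X L).to_subtype
  refine Finite.of_injective (fun g : LH X L => match g with
    | .F t => (Sum.inl t : Tp X L ⊕ Fin 5)
    | .P0 => .inr 0
    | .P => .inr 1
    | .F1 => .inr 2
    | .F0 => .inr 3
    | .P2 => .inr 4) ?_
  intro a b h
  cases a <;> cases b <;> simp_all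

theorem finite_rd [Finite A] [Finite X] : Finite (Rd A X) := by
  refine Finite.of_injective (fun g : Rd A X => match g with
    | .x a => (Sum.inl (Sum.inl a) : (X ⊕ A) ⊕ Fin 8)
    | .j i => .inl (.inr i)
    | .o => .inr 0
    | .p => .inr 1
    | .d => .inr 2
    | .q => .inr 3
    | .o' => .inr 4
    | .s => .inr 5
    | .e => .inr 6
    | .t => .inr 7) ?_
  intro a b h
  cases a <;> cases b <;> simp_all

theorem finite_ls [Finite X] : Finite (LS X) := by
  refine Finite.of_injective (fun g : LS X => match g with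
    | .b => (none : Option X)
    | .x a => some a) ?_
  intro a b h
  cases a <;> cases b <;> simp_all

theorem finite_rs [Finite A] : Finite (RS A) := by
  refine Finite.of_injective (fun g : RS A => match g with
    | .c => (none : Option A)
    | .j a => some a) ?_
  intro a b h
  cases a <;> cases b <;> simp_all

theorem finite_lt [Finite A] [Finite X] : Finite (Lt A X L) := by
  have := finite_rh (X := X) (L := L)
  have := finite_lh (X := X) (L := L)
  have := finite_rd (A := A) (X := X)
  have := finite_ls (X := X)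
  have := finite_rs (A := A)
  refine Finite.of_injective (fun g : Lt A X L => match g with
    | .z => (Sum.inr () : ((RH X L ⊕ LH X L) ⊕ (Rd A X ⊕ (LS X ⊕ RS A))) ⊕ Unit)
    | .rh h => .inl (.inl (.inl h))
    | .lh h => .inl (.inl (.inr h))
    | .rd r => .inl (.inr (.inl r))
    | .ls s => .inl (.inr (.inr (.inl s)))
    | .rs s => .inl (.inr (.inr (.inr s)))) ?_
  intro a b h
  cases a <;> cases b <;> simp_all

/-- There is a finite length-reducing confluent system with an undecidable `c`-conjugacy
problem. -/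
theorem main : ∃ (n : ℕ) (R : Set (List (Fin n) × List (Fin n))), R.Finite ∧ LengthReducing R ∧
    Confluent R ∧
    ¬ ComputablePred fun p : List (Fin n) × List (Fin n) => CConj (cls R p.1) (cls R p.2) := by
  classical
  obtain ⟨X, A, hX, hA, G, H, hG, hH, a, b', c, ha, hF⟩ := exists_pairs
  obtain ⟨L, hL⟩ : ∃ L, ∀ i, (G i).length ≤ L ∧ (H i).length ≤ L := by
    obtain ⟨L1, h1⟩ := (Set.finite_range fun i => (G i).length).bddAbove
    obtain ⟨L2, h2⟩ := (Set.finite_range fun i => (H i).length).bddAbove
    exact ⟨max L1 L2, fun i => ⟨(h1 ⟨i, rfl⟩).trans (le_max_left _ _),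
      (h2 ⟨i, rfl⟩).trans (le_max_right _ _)⟩⟩
  let U : A → Tp X L := fun i => ⟨(G i).reverse, by simpa using (hL i).1⟩
  let V : A → Tp X L := fun i => ⟨(H i).reverse, by simpa using (hL i).2⟩
  have := finite_lt (A := A) (X := X) (L := L)
  obtain ⟨n, ⟨e'⟩⟩ := Finite.exists_equiv_fin (Lt A X L)
  let e : Fin n ≃ Lt A X L := e'.symm
  refine ⟨n, tr e (Sy U V), ?_, ?_, conf_tr e conf, ?_⟩
  · refine (((List.finite_length_le (Fin n) 3).prod (List.finite_length_le (Fin n) 3))).subset ?_
    rintro ⟨x, y⟩ h
    have h1 : Rl U V (x.map e) (y.map e) := h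
    have h2 := rl_len h1
    have h3 := lenred (U := U) (V := V) (x.map e, y.map e) h1
    simp only [List.length_map] at h2 h3
    exact ⟨h2.2, by change y.length ≤ 3; omega⟩
  · rintro ⟨x, y⟩ h
    have h3 := lenred (U := U) (V := V) (x.map e, y.map e) h
    simpa using h3
  intro hdec
  obtain ⟨W, hW, hW'⟩ := Pool.Agent.Y669.TA.SysU.exists_re_not_co
  obtain ⟨F, hFc, hFW⟩ := hF W hW
  let wrd : ℕ → List X := fun k => a ++ (List.range k).flatMap (fun _ => b') ++ c
  -- the instances
  have key : ∀ k, CConj (cls (tr e (Sy U V)) ((wa : List (Lt A X L)).map e.symm))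
      (cls (tr e (Sy U V)) ((wb (wrd k) : List (Lt A X L)).map e.symm)) ↔
      ∃ is : List A, is ≠ [] ∧ wrd k ++ is.flatMap H = is.flatMap G := by
    intro k
    have h0 := cconj_tr e (conf (U := U) (V := V)) (z := Lt.z) (fun c => ⟨.zl c, .zr c⟩)
      (a := (wa : List (Lt A X L)).map e.symm) (b := (wb (wrd k) : List (Lt A X L)).map e.symm)
      (by
        intro h
        simp only [List.map_map, Equiv.self_comp_symm, List.map_id] at h
        have := irr_eq irr_wa irr_z h
        simp [wa] at this)
      (by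
        intro h
        simp only [List.map_map, Equiv.self_comp_symm, List.map_id] at h
        have := irr_eq (irr_wb (wrd k)) irr_z h
        simp [wb] at this)
    rw [h0]
    simp only [List.map_map, Equiv.self_comp_symm, List.map_id]
    rw [cconj_inst]
    have hU : ∀ js : List A, flt U js = js.reverse.flatMap G := by
      intro js; simp [flt, U]
    have hV : ∀ js : List A, flt V js = js.reverse.flatMap H := by
      intro js; simp [flt, V]
    constructor
    · rintro ⟨js, h⟩
      rw [hU, hV] at h
      refine ⟨js.reverse, ?_, h⟩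
      intro h1
      rw [h1] at h
      simp [wrd, ha] at h
    · rintro ⟨is, -, h⟩
      exact ⟨is.reverse, by rw [hU, hV]; simpa using h⟩
  let φ : List (Lt A X L) → List (Fin n) := fun w => w.map e.symm
  let T : ℕ → List (Fin n) × List (Fin n) := fun k =>
    (φ wa, φ ([.lh .P0, .ls .b] ++ hat a) ++ (List.range k).flatMap (fun _ => φ (hat b')) ++
      φ (hat c ++ [.rh .E0]))
  have hT : Primrec T := by
    refine Primrec.pair (Primrec.const _) ?_
    refine Primrec.list_append.comp (Primrec.list_append.comp (Primrec.const _) ?_)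
      (Primrec.const _)
    exact Primrec.list_flatMap Primrec.list_range (Primrec.const _).to₂
  have hTF : Computable fun k => T (F k) := hT.to_comp.comp hFc
  have hT2 : ∀ k, (T k).2 = φ (wb (wrd k)) := by
    intro k
    simp only [T, φ, wb, wrd, hat, List.map_append, List.map_flatMap, List.append_assoc]
  have hW2 : ComputablePred W := by
    refine ComputablePred.computable_of_manyOneReducible ⟨fun k => T (F k), hTF, fun k => ?_⟩ hdec
    rw [← hFW k]
    change _ ↔ CConj (cls _ (T (F k)).1) (cls _ (T (F k)).2)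
    rw [hT2]
    exact (key (F k)).symm
  exact hW' (ComputablePred.computable_iff_re_compl_re'.1 hW2).2

end Pool.Agent.X238.Ccj
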