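import Pool.Agent.X238.Ccj.Fwd

set_option autoImplicit false
set_option linter.unnecessarySeqFocus false

/-!
# The runs of the heads on an arbitrary word
-/

namespace Pool.Agent.X238.Ccj

open Pool.Agent.X238.Mcs Relation

variable {A X : Type} {L : ℕ} {U V : A → Tp X L}

/-! ### boundaries -/

/-- the last letter is a left-moving head or a letter of its stack -/
def EndL (u : List (Lt A X L)) : Prop :=
  ∃ u' c, u = u' ++ [c] ∧ ((∃ h, c = .lh h) ∨ ∃ s, c = .rs s)

/-- the first letter is a right-moving head or a letter of its stack -/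
def StartR (v : List (Lt A X L)) : Prop :=
  ∃ c v', v = c :: v' ∧ ((∃ h, c = .rh h) ∨ ∃ s, c = .ls s)

theorem no_pair {x y x1 x2 : List (Lt A X L)} {c c' : Lt A X L} (h : Rl U V x y)
    (e : x = x1 ++ c :: c' :: x2) (hc : (∃ h, c = .lh h) ∨ ∃ s, c = .rs s)
    (hc' : (∃ h, c' = .rh h) ∨ ∃ s, c' = .ls s) : False := by
  have hl := rl_len h
  have l3 := congrArg List.length e
  simp only [List.length_append, List.length_cons] at l3
  rcases x1 with _ | ⟨d1, _ | ⟨d2, x1⟩⟩
  · rcases hc with ⟨k, rfl⟩ | ⟨k, rfl⟩ <;> rcases hc' with ⟨k', rfl⟩ | ⟨k', rfl⟩ <;>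
      cases h <;> simp at e
  · rcases hc with ⟨k, rfl⟩ | ⟨k, rfl⟩ <;> rcases hc' with ⟨k', rfl⟩ | ⟨k', rfl⟩ <;>
      cases h <;> simp at e
  · simp only [List.length_cons] at l3
    omega

theorem no_cross {x y u v a b x1 x2 : List (Lt A X L)} (h : Rl U V x y) (e : x = x1 ++ x2)
    (h1 : x1 ≠ []) (h2 : x2 ≠ []) (hu : u = a ++ x1) (hv : v = x2 ++ b) (eu : EndL u)
    (sv : StartR v) : False := by
  obtain ⟨u', c, rfl, hc⟩ := eu
  obtain ⟨c', v', rfl, hc'⟩ := sv
  rcases List.eq_nil_or_concat' x1 with h0 | ⟨x1', c1, rfl⟩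
  · exact h1 h0
  cases x2 with
  | nil => exact h2 rfl
  | cons c2 x2' =>
    have e1 : c = c1 := by
      have := congrArg List.getLast? hu
      simpa using this
    have e2 : c' = c2 := by simpa using (List.cons.inj hv).1
    subst e1
    subst e2
    exact no_pair (x1 := x1') (x2 := x2') h (by rw [e]; simp) hc hc'

theorem irr_append {u v : List (Lt A X L)} (hu : Irr (Sy U V) u) (hv : Irr (Sy U V) v)
    (eu : EndL u) (sv : StartR v) : Irr (Sy U V) (u ++ v) := by
  rintro w ⟨a, b, x, y, h, e, rfl⟩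
  rcases occ2 e.symm with ⟨k, h1, h2⟩ | ⟨k, h1, h2⟩ | ⟨x1, x2, h1, h2, h3, h4, h5⟩
  · exact hu _ ⟨a, k, x, y, h, h1, rfl⟩
  · exact hv _ ⟨k, b, x, y, h, h1, rfl⟩
  · exact no_cross h h1 h2 h3 h4 h5 eu sv

theorem endL_step {u u' : List (Lt A X L)} (eu : EndL u) (h : Step (Sy U V) u u') :
    EndL u' ∨ Lt.z ∈ u' := by
  obtain ⟨a, b, x, y, h, rfl, rfl⟩ := h
  change Rl U V x y at h
  obtain ⟨u'', c, e, hc⟩ := eu
  rcases List.eq_nil_or_concat' b with rfl | ⟨b', c1, rfl⟩
  · have hx : x.getLast? = some c := by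
      have := congrArg List.getLast? e
      have hl := rl_len h
      rcases List.eq_nil_or_concat' x with rfl | ⟨x', c2, rfl⟩
      · simp at hl
      · simpa using this
    have key : Lt.z ∈ y ∨ ∃ y' c', y = y' ++ [c'] ∧ ((∃ h, c' = Lt.lh h) ∨ ∃ s, c' = Lt.rs s) := by
      cases h with
      | zl c0 => simp
      | zr c0 => simp
      | zz k k' => simp
      | ra hr => simp at hx; rcases hc with ⟨k, rfl⟩ | ⟨k, rfl⟩ <;> simp at hx
      | rb hr => simp at hx; rcases hc with ⟨k, rfl⟩ | ⟨k, rfl⟩ <;> simp at hx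
      | rc hr => simp at hx; rcases hc with ⟨k, rfl⟩ | ⟨k, rfl⟩ <;> simp at hx
      | la hr =>
        rcases hr.cases' with rfl | ⟨h2, rfl⟩
        · simp
        · exact Or.inr ⟨[], _, rfl, Or.inl ⟨_, rfl⟩⟩
      | lb hr => exact Or.inr ⟨[], _, rfl, Or.inl ⟨_, rfl⟩⟩
      | lc hr => exact Or.inr ⟨[_], _, rfl, Or.inr ⟨_, rfl⟩⟩
    rcases key with h1 | ⟨y', c', rfl, h1⟩
    · right; simp [h1]
    · left; exact ⟨a ++ y', c', by simp, h1⟩
  · left
    refine ⟨a ++ y ++ b', c1, by simp, ?_⟩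
    have : c1 = c := by
      have := congrArg List.getLast? e
      simpa using this
    rw [this]; exact hc

theorem irr_z : Irr (Sy U V) [.z] := by
  rintro w ⟨a, b, x, y, h, e, -⟩
  have hl := rl_len (show Rl U V x y from h)
  have := congrArg List.length e
  simp at this
  omega

/-- a zero arises on the left of the boundary -/
theorem split_z {v : List (Lt A X L)} (hv : Irr (Sy U V) v) (sv : StartR v) (zv : Lt.z ∉ v)
    {u : List (Lt A X L)} (eu : EndL u) (h : To U V (u ++ v) [.z]) : To U V u [.z] := by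
  have key : ∀ W : List (Lt A X L), To U V W [.z] → ∀ u, W = u ++ v → (EndL u ∨ Lt.z ∈ u) →
      To U V u [.z] := by
    intro W hW
    induction hW using ReflTransGen.head_induction_on with
    | refl =>
      intro u e hu
      rcases hu with hu | hu
      · exfalso
        obtain ⟨u', c, rfl, -⟩ := hu
        obtain ⟨c', v', rfl, -⟩ := sv
        have := congrArg List.length e
        simp at this
        omega
      · exact to_z hu
    | head h1 _ ih =>
      rename_i W W'
      intro u e hu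
      rcases hu with hu | hu
      swap
      · exact to_z hu
      subst e
      obtain ⟨a, b, x, y, h, e, rfl⟩ := h1
      rcases occ2 e.symm with ⟨k, h1, h2⟩ | ⟨k, h1, h2⟩ | ⟨x1, x2, h1, h2, h3, h4, h5⟩
      · have hs : Step (Sy U V) u (a ++ y ++ k) := ⟨a, k, x, y, h, h1, rfl⟩
        refine .head hs (ih (a ++ y ++ k) ?_ (endL_step hu hs))
        rw [h2]; simp
      · exact absurd ⟨k, b, x, y, h, h1, rfl⟩ (hv (k ++ y ++ b))
      · exact (no_cross h h1 h2 h3 h4 h5 hu sv).elim
  exact key _ h u rfl (Or.inl eu)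

/-! ### the right-moving run -/

/-- indices in a word -/
def ixs (K : List (Lt A X L)) : List A :=
  K.filterMap fun c => match c with
    | .rd (.j i) => some i
    | _ => none

/-- letters in a word -/
def ltr (m : List (Lt A X L)) : List X :=
  m.filterMap fun c => match c with
    | .rd (.x a) => some a
    | _ => none

/-- the word that is popped for the indices -/
def flt (V : A → Tp X L) (js : List A) : List X := js.reverse.flatMap fun i => (V i).val.reverse

/-- letters `q` and indices -/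
def KQ (K : List (Lt A X L)) : Prop := ∀ c ∈ K, c = .rd .q ∨ ∃ i, c = .rd (.j i)

/-- letters `p` and letters -/
def XP (K : List (Lt A X L)) : Prop := ∀ c ∈ K, c = .rd .p ∨ ∃ a, c = .rd (.x a)

/-- left stack -/
def ST (w : List X) : List (LS X) := .b :: w.map .x

/-- invariant of the right-moving head: state, stack, word that has been read -/
def I1 (V : A → Tp X L) : RH X L → List (LS X) → List (Lt A X L) → Prop
  | .D0, st, _ => st = []
  | .D, st, g1 => ∃ g0 y, g1 = g0 ++ [.rd .o, .rd .p] ++ raw y ∧ st = ST y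
  | .E l, st, g1 => ∃ g0 y K w s, g1 = g0 ++ [.rd .o, .rd .p] ++ raw y ++ [.rd .d] ++ K ∧ KQ K ∧
      st = ST w ∧ flt V (ixs K) = l.val.reverse ++ s ∧ y = w ++ s
  | .E0, st, g1 => ∃ g0 y K w, g1 = g0 ++ [.rd .o, .rd .p] ++ raw y ++ [.rd .d] ++ K ++ [.rd .o'] ∧
      KQ K ∧ st = ST w ∧ y = w ++ flt V (ixs K)
  | _, st, _ => ∃ w, st = ST w

theorem st_pop {st : List (LS X)} {a : X} {w : List X} (h : st ++ [.x a] = ST w) :
    ∃ w', w = w' ++ [a] ∧ st = ST w' := by
  rcases List.eq_nil_or_concat' w with rfl | ⟨w', b, rfl⟩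
  · exfalso
    have h2 : st ++ [.x a] = [] ++ [LS.b] := by rw [h]; simp [ST]
    have := (List.append_inj' h2 rfl).2
    simp at this
  · have h2 : st ++ [.x a] = ST w' ++ [.x b] := by rw [h]; simp [ST]
    have := List.append_inj' h2 rfl
    simp only [List.cons.injEq, LS.x.injEq, and_true] at this
    exact ⟨w', by rw [this.2], this.1⟩

theorem st_pop_b {st : List (LS X)} {w : List X} (h : st ++ [.b] = ST w) : st = [] := by
  rcases List.eq_nil_or_concat' w with rfl | ⟨w', b, rfl⟩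
  · have h2 : st ++ [.b] = [] ++ [LS.b] := by rw [h]; simp [ST]
    exact (List.append_inj' h2 rfl).1
  · exfalso
    have h2 : st ++ [.b] = ST w' ++ [.x b] := by rw [h]; simp [ST]
    have := (List.append_inj' h2 rfl).2
    simp at this

theorem i1_ra {h h' : RH X L} {r : Rd A X} {st : List (LS X)} {g1 : List (Lt A X L)}
    (hr : RA V h r h') (hi : I1 V h st g1) : I1 V h' st (g1 ++ [.rd r]) := by
  cases hr with
  | d =>
    obtain ⟨g0, y, rfl, rfl⟩ := hi
    exact ⟨g0, y, [], y, [], by simp, by simp [KQ], rfl, by simp [flt, ixs], by simp⟩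
  | q =>
    obtain ⟨g0, y, K, w, s, rfl, hK, rfl, hf, rfl⟩ := hi
    refine ⟨g0, _, K ++ [.rd .q], w, s, by simp, ?_, rfl, ?_, rfl⟩
    · intro c hc
      rcases List.mem_append.1 hc with h | h
      · exact hK c h
      · left; simpa using h
    · simpa [ixs] using hf
  | j i =>
    obtain ⟨g0, y, K, w, s, rfl, hK, rfl, hf, rfl⟩ := hi
    refine ⟨g0, _, K ++ [.rd (.j i)], w, s, by simp, ?_, rfl, ?_, rfl⟩
    · intro c hc
      rcases List.mem_append.1 hc with h | h
      · exact hK c h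
      · right; exact ⟨i, by simpa using h⟩
    · simp only [t0_val, List.reverse_nil, List.nil_append] at hf
      rw [← hf]
      simp [ixs, flt]
  | o =>
    obtain ⟨g0, y, K, w, s, rfl, hK, rfl, hf, rfl⟩ := hi
    simp only [t0_val, List.reverse_nil, List.nil_append] at hf
    exact ⟨g0, w ++ s, K, w, by simp, hK, rfl, by rw [hf]⟩
  | s =>
    obtain ⟨g0, y, K, w, rfl, hK, rfl, hf⟩ := hi
    exact ⟨w, rfl⟩
  | e => exact hi
  | t => exact hi

theorem i1_rb {h h' : RH X L} {s : LS X} {st : List (LS X)} {g1 : List (Lt A X L)}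
    (hr : RB s h h') (hi : I1 V h (st ++ [s]) g1) : I1 V h' st g1 := by
  cases hr with
  | x hl =>
    rename_i a l l'
    obtain ⟨g0, y, K, w, s, rfl, hK, hst, hf, rfl⟩ := hi
    obtain ⟨w', rfl, rfl⟩ := st_pop hst
    rw [hl] at hf
    exact ⟨g0, _, K, w', a :: s, rfl, hK, rfl, by rw [hf]; simp, by simp⟩
  | y a =>
    obtain ⟨w, hst⟩ := hi
    obtain ⟨w', rfl, rfl⟩ := st_pop hst
    exact ⟨w', rfl⟩
  | b =>
    obtain ⟨w, hst⟩ := hi
    exact st_pop_b hst

theorem i1_rc {h h' : RH X L} {r : Rd A X} {s : LS X} {st : List (LS X)} {g1 : List (Lt A X L)}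
    (hr : RC h r s h') (hi : I1 V h st g1) : I1 V h' (st ++ [s]) (g1 ++ [.rd r, .rd .p]) := by
  cases hr with
  | o =>
    have : st = [] := hi
    subst this
    exact ⟨g1, [], by simp, rfl⟩
  | x a =>
    obtain ⟨g0, y, rfl, rfl⟩ := hi
    exact ⟨g0, y ++ [a], by simp, by simp [ST]⟩

theorem step_z {u v : List (Lt A X L)} (h : Step (Sy U V) u v) (hz : Lt.z ∈ u) : Lt.z ∈ v := by
  obtain ⟨a, b, x, y, h, rfl, rfl⟩ := h
  change Rl U V x y at h
  simp only [List.mem_append] at hz ⊢
  rcases hz with (hz | hz) | hz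
  · exact Or.inl (Or.inl hz)
  · exact Or.inl (Or.inr (rl_z h hz))
  · exact Or.inr hz

theorem split_two {S : Type} {p q c : S} {x1 x2 : List S} (h : [p, q] = x1 ++ c :: x2) :
    (x1 = [] ∧ c = p ∧ x2 = [q]) ∨ (x1 = [p] ∧ c = q ∧ x2 = []) := by
  rcases x1 with _ | ⟨a, _ | ⟨b, x1⟩⟩
  · left; simpa [eq_comm] using h
  · right
    simp only [List.cons_append, List.nil_append, List.cons.injEq] at h
    obtain ⟨rfl, rfl, rfl⟩ := h
    simp
  · have := congrArg List.length h
    simp at this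

theorem split_three {S : Type} {p q r c : S} {x1 x2 : List S} (h : [p, q, r] = x1 ++ c :: x2) :
    (x1 = [] ∧ c = p ∧ x2 = [q, r]) ∨ (x1 = [p] ∧ c = q ∧ x2 = [r]) ∨
      (x1 = [p, q] ∧ c = r ∧ x2 = []) := by
  rcases x1 with _ | ⟨a, _ | ⟨b, _ | ⟨b', x1⟩⟩⟩
  · left; simpa [eq_comm] using h
  · right; left
    simp only [List.cons_append, List.nil_append, List.cons.injEq] at h
    obtain ⟨rfl, rfl, rfl⟩ := h
    simp
  · right; right
    simp only [List.cons_append, List.nil_append, List.cons.injEq] at h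
    obtain ⟨rfl, rfl, rfl, rfl⟩ := h
    simp
  · have := congrArg List.length h
    simp at this

theorem map_ls_pop {st : List (LS X)} {a : List (Lt A X L)} {s : LS X}
    (h : st.map Lt.ls = a ++ [.ls s]) : ∃ st', st = st' ++ [s] ∧ a = st'.map .ls := by
  rcases List.eq_nil_or_concat' st with rfl | ⟨st', s', rfl⟩
  · simp at h
  · simp only [List.map_append, List.map_cons, List.map_nil] at h
    have := List.append_inj' h rfl
    simp only [List.cons.injEq, Lt.ls.injEq, and_true] at this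
    exact ⟨st', by rw [this.2], this.1.symm⟩

theorem run_right {g : List (Lt A X L)} (hg : Irr (Sy U V) g) (zg : Lt.z ∉ g)
    {W : List (Lt A X L)} (h : To U V (.rh .D0 :: g) W) :
    Lt.z ∈ W ∨ ∃ g1 g2 h st, W = st.map .ls ++ .rh h :: g2 ∧ g = g1 ++ g2 ∧ I1 V h st g1 := by
  induction h with
  | refl => exact Or.inr ⟨[], g, .D0, [], by simp, by simp, rfl⟩
  | tail _ h ih =>
    rcases ih with ih | ⟨g1, g2, k, st, rfl, rfl, hi⟩
    · exact Or.inl (step_z h ih)
    obtain ⟨a, b, x, y, h, e, rfl⟩ := h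
    change Rl U V x y at h
    have zg2 : Lt.z ∉ g2 := fun h => zg (by simp [h])
    rcases occ e.symm with ⟨m, h1⟩ | ⟨m, h1, h2⟩ | ⟨x1, x2, rfl, h1, h2⟩
    · -- inside the stack
      exfalso
      have hx : ∀ c ∈ x, ∃ s, c = Lt.ls s := by
        intro c hc
        have : c ∈ st.map Lt.ls := by rw [h1]; simp [hc]
        obtain ⟨s, -, rfl⟩ := List.mem_map.1 this
        exact ⟨s, rfl⟩
      cases h <;> simp at hx
    · -- inside g2
      exfalso
      exact hg _ ⟨g1 ++ m, b, x, y, h, by rw [h1]; simp, rfl⟩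
    · -- at the head
      generalize hx : x1 ++ Lt.rh k :: x2 = x at h
      cases h with
      | zl c0 =>
        rcases split_two hx.symm with ⟨rfl, h4, rfl⟩ | ⟨rfl, h4, rfl⟩
        · simp at h4
        · left; simp
      | zr c0 => left; simp
      | zz k1 k' => left; simp
      | ra hr =>
        rcases split_two hx.symm with ⟨rfl, h4, rfl⟩ | ⟨rfl, h4, rfl⟩
        · obtain rfl := Lt.rh.inj h4
          right
          refine ⟨g1 ++ [.rd _], b, _, st, ?_, by rw [h2]; simp, i1_ra hr hi⟩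
          rw [h1]; simp
        · simp at h4
      | rb hr =>
        rcases split_two hx.symm with ⟨rfl, h4, rfl⟩ | ⟨rfl, h4, rfl⟩
        · simp at h4
        · obtain rfl := Lt.rh.inj h4
          obtain ⟨st', rfl, e3⟩ := map_ls_pop h1
          right
          refine ⟨g1, g2, _, st', ?_, rfl, i1_rb hr hi⟩
          rw [e3, h2]; simp
      | rc hr =>
        rcases split_three hx.symm with ⟨rfl, h4, rfl⟩ | ⟨rfl, h4, rfl⟩ | ⟨rfl, h4, rfl⟩
        · obtain rfl := Lt.rh.inj h4
          right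
          refine ⟨g1 ++ [.rd _, .rd .p], b, _, st ++ [_], ?_, by rw [h2]; simp, i1_rc hr hi⟩
          simp only [List.append_nil] at h1
          rw [← h1]; simp
        · simp at h4
        · simp at h4
      | la hr =>
        rcases split_two hx.symm with ⟨rfl, h4, rfl⟩ | ⟨rfl, h4, rfl⟩ <;> simp at h4
      | lb hr =>
        rcases split_two hx.symm with ⟨rfl, h4, rfl⟩ | ⟨rfl, h4, rfl⟩ <;> simp at h4
      | lc hr =>
        rcases split_three hx.symm with ⟨rfl, h4, rfl⟩ | ⟨rfl, h4, rfl⟩ | ⟨rfl, h4, rfl⟩ <;>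
          simp at h4

/-! ### the left-moving run -/

/-- a complete block that matches the words of its indices is a suffix of the word -/
def Fin2 (U : A → Tp X L) (g2 : List (Lt A X L)) : Prop :=
  ∃ g3 m js, g2 = g3 ++ [.rd .o] ++ m ++ [.rd .d] ++ idx js ++ [.rd .q, .rd .o'] ∧ XP m ∧
    ltr m = flt U js

/-- invariant of the left-moving head: state, stack, word that has been read -/
def I2 (U : A → Tp X L) : LH X L → List (RS A) → List (Lt A X L) → Prop
  | .P0, st, g2 => st = [] ∧ (g2 = [] ∨ Fin2 U g2)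
  | .P2, st, g2 => st = [] ∧ Fin2 U g2
  | .F0, st, g2 => st = [] ∧ Fin2 U g2
  | .P, st, g2 => ∃ js, st = js.map .j ++ [.c] ∧ (g2 = idx js ++ [.rd .q, .rd .o'] ∨ Fin2 U g2)
  | .F l, st, g2 => ∃ js, st = js.map .j ++ [.c] ∧
      ((∃ js' m, g2 = m ++ [.rd .d] ++ idx (js' ++ js) ++ [.rd .q, .rd .o'] ∧ XP m ∧
        l.val.reverse ++ ltr m = flt U js') ∨ Fin2 U g2)
  | .F1, st, g2 => st = [] ∧
      ((∃ js m, g2 = m ++ [.rd .d] ++ idx js ++ [.rd .q, .rd .o'] ∧ XP m ∧
        ltr m = flt U js) ∨ Fin2 U g2)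

theorem Fin2.cons {g2 : List (Lt A X L)} (h : Fin2 U g2) (c : Lt A X L) : Fin2 U (c :: g2) := by
  obtain ⟨g3, m, js, rfl, h1, h2⟩ := h
  exact ⟨c :: g3, m, js, by simp, h1, h2⟩

theorem XP.cons_p {m : List (Lt A X L)} (h : XP m) : XP (.rd .p :: m) := by
  intro c hc
  rcases List.mem_cons.1 hc with rfl | hc
  · exact Or.inl rfl
  · exact h c hc

theorem XP.cons_x {m : List (Lt A X L)} (h : XP m) (a : X) : XP (.rd (.x a) :: m) := by
  intro c hc
  rcases List.mem_cons.1 hc with rfl | hc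
  · exact Or.inr ⟨a, rfl⟩
  · exact h c hc

theorem i2_la {h : LH X L} {k : Lt A X L} {r : Rd A X} {st : List (RS A)} {g2 : List (Lt A X L)}
    (hr : LA r h k) (hi : I2 U h st g2) :
    k = .z ∨ ∃ h', k = .lh h' ∧ I2 U h' st (.rd r :: g2) := by
  cases hr with
  | d =>
    right
    obtain ⟨js, rfl, rfl | hi⟩ := hi
    · exact ⟨_, rfl, js, rfl, Or.inl ⟨[], [], by simp, by simp [XP], by simp [ltr, flt]⟩⟩
    · exact ⟨_, rfl, js, rfl, Or.inr (hi.cons _)⟩
  | p hl =>
    right
    obtain ⟨js, rfl, ⟨js', m, rfl, h1, h2⟩ | hi⟩ := hi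
    · exact ⟨_, rfl, js, rfl, Or.inl ⟨js', .rd .p :: m, by simp, h1.cons_p, by
        rw [← h2]; simp [ltr]⟩⟩
    · exact ⟨_, rfl, js, rfl, Or.inr (hi.cons _)⟩
  | x hl =>
    rename_i a l l'
    right
    obtain ⟨js, rfl, ⟨js', m, rfl, h1, h2⟩ | hi⟩ := hi
    · exact ⟨_, rfl, js, rfl, Or.inl ⟨js', .rd (.x a) :: m, by simp, h1.cons_x a, by
        rw [← h2, hl]; simp [ltr]⟩⟩
    · exact ⟨_, rfl, js, rfl, Or.inr (hi.cons _)⟩
  | xz => left; rfl
  | oz => left; rfl
  | p1 =>
    right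
    obtain ⟨rfl, ⟨js, m, rfl, h1, h2⟩ | hi⟩ := hi
    · exact ⟨_, rfl, rfl, Or.inl ⟨js, .rd .p :: m, by simp, h1.cons_p, by
        rw [← h2]; simp [ltr]⟩⟩
    · exact ⟨_, rfl, rfl, Or.inr (hi.cons _)⟩
  | o1 =>
    right
    obtain ⟨rfl, ⟨js, m, rfl, h1, h2⟩ | hi⟩ := hi
    · exact ⟨_, rfl, rfl, ⟨[], m, js, by simp, h1, h2⟩⟩
    · exact ⟨_, rfl, rfl, hi.cons _⟩
  | x1 => left; rfl
  | t => exact Or.inr ⟨_, rfl, hi.1, hi.2.cons _⟩
  | e => exact Or.inr ⟨_, rfl, hi.1, hi.2.cons _⟩
  | s => exact Or.inr ⟨_, rfl, hi.1, Or.inr (hi.2.cons _)⟩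

theorem i2_lb {h h' : LH X L} {s : RS A} {st : List (RS A)} {g2 : List (Lt A X L)}
    (hr : LB U h s h') (hi : I2 U h (s :: st) g2) : I2 U h' st g2 := by
  cases hr with
  | j i =>
    obtain ⟨js, e, hi⟩ := hi
    cases js with
    | nil => simp at e
    | cons i' js =>
      simp only [List.map_cons, List.cons_append, List.cons.injEq, RS.j.injEq] at e
      obtain ⟨rfl, rfl⟩ := e
      refine ⟨js, rfl, ?_⟩
      rcases hi with ⟨js', m, rfl, h1, h2⟩ | hi
      · refine Or.inl ⟨js' ++ [i], m, by simp, h1, ?_⟩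
        simp only [t0_val, List.reverse_nil, List.nil_append] at h2
        rw [h2]
        simp [flt]
      · exact Or.inr hi
  | c =>
    obtain ⟨js, e, hi⟩ := hi
    cases js with
    | cons i' js => simp at e
    | nil =>
      simp only [List.map_nil, List.nil_append, List.cons.injEq, true_and] at e
      subst e
      refine ⟨rfl, ?_⟩
      rcases hi with ⟨js', m, rfl, h1, h2⟩ | hi
      · exact Or.inl ⟨js', m, by simp, h1, by simpa using h2⟩
      · exact Or.inr hi

theorem i2_lc {h h' : LH X L} {r : Rd A X} {s : RS A} {st : List (RS A)} {g2 : List (Lt A X L)}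
    (hr : LC r h h' s) (hi : I2 U h st g2) : I2 U h' (s :: st) (.rd .q :: .rd r :: g2) := by
  cases hr with
  | o =>
    obtain ⟨rfl, rfl | hi⟩ := hi
    · exact ⟨[], rfl, Or.inl rfl⟩
    · exact ⟨[], rfl, Or.inr ((hi.cons _).cons _)⟩
  | j i =>
    obtain ⟨js, rfl, rfl | hi⟩ := hi
    · exact ⟨i :: js, rfl, Or.inl (by simp)⟩
    · exact ⟨i :: js, rfl, Or.inr ((hi.cons _).cons _)⟩

theorem run_left {g : List (Lt A X L)} (hg : Irr (Sy U V) g) (zg : Lt.z ∉ g)
    {W : List (Lt A X L)} (h : To U V (g ++ [.lh .P0]) W) :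
    Lt.z ∈ W ∨ ∃ g1 g2 h st, W = g1 ++ .lh h :: st.map .rs ∧ g = g1 ++ g2 ∧ I2 U h st g2 := by
  induction h with
  | refl => exact Or.inr ⟨g, [], .P0, [], by simp, by simp, rfl, Or.inl rfl⟩
  | tail _ h ih =>
    rcases ih with ih | ⟨g1, g2, k, st, rfl, rfl, hi⟩
    · exact Or.inl (step_z h ih)
    obtain ⟨a, b, x, y, h, e, rfl⟩ := h
    change Rl U V x y at h
    have zg1 : Lt.z ∉ g1 := fun h => zg (by simp [h])
    rcases occ e.symm with ⟨m, h1⟩ | ⟨m, h1, h2⟩ | ⟨x1, x2, rfl, h1, h2⟩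
    · -- inside g1
      exfalso
      exact hg _ ⟨a, m ++ g2, x, y, h, by rw [h1]; simp, rfl⟩
    · -- inside the stack
      exfalso
      have hx : ∀ c ∈ x, ∃ s, c = Lt.rs s := by
        intro c hc
        have : c ∈ st.map Lt.rs := by rw [h1]; simp [hc]
        obtain ⟨s, -, rfl⟩ := List.mem_map.1 this
        exact ⟨s, rfl⟩
      cases h <;> simp at hx
    · -- at the head
      generalize hx : x1 ++ Lt.lh k :: x2 = x at h
      cases h with
      | zl c0 => left; simp
      | zr c0 => left; simp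
      | zz k1 k' => left; simp
      | ra hr =>
        rcases split_two hx.symm with ⟨rfl, h4, rfl⟩ | ⟨rfl, h4, rfl⟩ <;> simp at h4
      | rb hr =>
        rcases split_two hx.symm with ⟨rfl, h4, rfl⟩ | ⟨rfl, h4, rfl⟩ <;> simp at h4
      | rc hr =>
        rcases split_three hx.symm with ⟨rfl, h4, rfl⟩ | ⟨rfl, h4, rfl⟩ | ⟨rfl, h4, rfl⟩ <;>
          simp at h4
      | la hr =>
        rcases split_two hx.symm with ⟨rfl, h4, rfl⟩ | ⟨rfl, h4, rfl⟩
        · simp at h4
        · obtain rfl := Lt.lh.inj h4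
          rcases i2_la hr hi with rfl | ⟨h', rfl, hi'⟩
          · left; simp
          · right
            refine ⟨a, .rd _ :: g2, h', st, ?_, by rw [h1]; simp, hi'⟩
            rw [h2]; simp
      | lb hr =>
        rcases split_two hx.symm with ⟨rfl, h4, rfl⟩ | ⟨rfl, h4, rfl⟩
        · obtain rfl := Lt.lh.inj h4
          cases st with
          | nil => simp at h2
          | cons s' st =>
            simp only [List.map_cons, List.cons_append, List.nil_append, List.cons.injEq,
              Lt.rs.injEq] at h2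
            obtain ⟨rfl, rfl⟩ := h2
            right
            refine ⟨g1, g2, _, st, ?_, rfl, i2_lb hr hi⟩
            rw [h1]; simp
        · simp at h4
      | lc hr =>
        rcases split_three hx.symm with ⟨rfl, h4, rfl⟩ | ⟨rfl, h4, rfl⟩ | ⟨rfl, h4, rfl⟩
        · simp at h4
        · simp at h4
        · obtain rfl := Lt.lh.inj h4
          right
          refine ⟨a, .rd .q :: .rd _ :: g2, _, _ :: st, ?_, by rw [h1]; simp, i2_lc hr hi⟩
          simp only [List.nil_append] at h2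
          rw [← h2]; simp

end Pool.Agent.X238.Ccj
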