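import Pool.Agent.X238.Mcs.Rw

set_option autoImplicit false

/-!
# Length-reducing systems and `c`-conjugacy
-/

namespace Pool.Agent.X238.Ccj

open Pool.Agent.X238.Mcs

/-- Every rule has a shorter right-hand side. -/
def LengthReducing {S : Type} (R : Set (List S × List S)) : Prop :=
  ∀ p ∈ R, p.2.length < p.1.length

/-- `z` is the zero of the monoid. -/
def IsZ {M : Type} [Monoid M] (z : M) : Prop := ∀ x : M, z * x = z ∧ x * z = z

/-- The set `P(a)`: everything if there is no zero; if `0` is the zero, then `P(0) = {0}` and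
`P(a) = {g : ∀ m, m a g = 0 → m a = 0}` for `a ≠ 0`. -/
def PSet {M : Type} [Monoid M] (a : M) : Set M :=
  {g | ∀ z : M, IsZ z → (a = z → g = z) ∧ (a ≠ z → ∀ m : M, m * a * g = z → m * a = z)}

/-- `c`-conjugacy. -/
def CConj {M : Type} [Monoid M] (a b : M) : Prop :=
  ∃ g ∈ PSet a, ∃ h ∈ PSet b, a * g = g * b ∧ b * h = h * a

end Pool.Agent.X238.Ccj
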