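import Pool.Agent.X238.Ccj.Sys

set_option autoImplicit false

/-!
# The reductions for a solution
-/

namespace Pool.Agent.X238.Ccj

open Pool.Agent.X238.Mcs Relation

variable {A X : Type} {L : ℕ} {U V : A → Tp X L}

/-- letters of a word, to be read -/
def raw (y : List X) : List (Lt A X L) := y.flatMap fun a => [.rd (.x a), .rd .p]

/-- letters of a word, on the left stack -/
def hat (y : List X) : List (Lt A X L) := y.map fun a => .ls (.x a)

/-- indices, to be read -/
def idx (js : List A) : List (Lt A X L) := js.flatMap fun i => [.rd .q, .rd (.j i)]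

/-- indices, on the right stack -/
def jst (js : List A) : List (Lt A X L) := js.map fun i => .rs (.j i)

@[simp] theorem raw_nil : (raw [] : List (Lt A X L)) = [] := rfl
@[simp] theorem raw_cons (a : X) (y : List X) :
    (raw (a :: y) : List (Lt A X L)) = .rd (.x a) :: .rd .p :: raw y := by simp [raw]
@[simp] theorem raw_append (y y' : List X) :
    (raw (y ++ y') : List (Lt A X L)) = raw y ++ raw y' := by simp [raw]
@[simp] theorem hat_nil : (hat [] : List (Lt A X L)) = [] := rfl
@[simp] theorem hat_cons (a : X) (y : List X) :
    (hat (a :: y) : List (Lt A X L)) = .ls (.x a) :: hat y := by simp [hat]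
@[simp] theorem hat_append (y y' : List X) :
    (hat (y ++ y') : List (Lt A X L)) = hat y ++ hat y' := by simp [hat]
@[simp] theorem idx_nil : (idx [] : List (Lt A X L)) = [] := rfl
@[simp] theorem idx_cons (i : A) (js : List A) :
    (idx (i :: js) : List (Lt A X L)) = .rd .q :: .rd (.j i) :: idx js := by simp [idx]
@[simp] theorem idx_append (js js' : List A) :
    (idx (js ++ js') : List (Lt A X L)) = idx js ++ idx js' := by simp [idx]
@[simp] theorem jst_nil : (jst [] : List (Lt A X L)) = [] := rfl
@[simp] theorem jst_cons (i : A) (js : List A) :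
    (jst (i :: js) : List (Lt A X L)) = .rs (.j i) :: jst js := by simp [jst]
@[simp] theorem jst_append (js js' : List A) :
    (jst (js ++ js') : List (Lt A X L)) = jst js ++ jst js' := by simp [jst]

/-- the element `g` -/
def gw (y : List X) (js : List A) : List (Lt A X L) :=
  [.rd .o, .rd .p] ++ raw y ++ [.rd .d] ++ idx js ++ [.rd .q, .rd .o']

/-- the element `h` -/
def hw (n : ℕ) : List (Lt A X L) := [.rd .s] ++ List.replicate n (.rd .e) ++ [.rd .t]

/-- the first word of the instance -/
def wa : List (Lt A X L) := [.lh .F0, .rh .D0]

/-- the second word of the instance -/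
def wb (w : List X) : List (Lt A X L) := [.lh .P0, .ls .b] ++ hat w ++ [.rh .E0]

/-- reduction -/
abbrev To (U V : A → Tp X L) (u v : List (Lt A X L)) : Prop := ReflTransGen (Step (Sy U V)) u v

theorem one {x y : List (Lt A X L)} (h : Rl U V x y) (a b : List (Lt A X L)) :
    To U V (a ++ x ++ b) (a ++ y ++ b) := .single ⟨a, b, x, y, h, rfl, rfl⟩

/-! ### right-moving heads -/

theorem push_word (y : List X) : To U V ([.rh .D] ++ raw y) (hat y ++ [.rh .D]) := by
  induction y with
  | nil => exact .refl
  | cons a y ih =>
    have h1 := one (U := U) (V := V) (.rc (.x a)) [] (raw y)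
    have h2 := steps_append ih [.ls (.x a)] []
    simp only [List.append_nil, List.nil_append] at h1 h2
    exact .trans (by simpa using h1) (by simpa using h2)

theorem pop_word (l : Tp X L) : To U V (hat l.val.reverse ++ [.rh (.E l)]) [.rh (.E t0)] := by
  obtain ⟨l, hl⟩ := l
  induction l with
  | nil => exact .refl
  | cons a l ih =>
    have h1 := one (U := U) (V := V) (.rb (.x (a := a) (l := ⟨a :: l, hl⟩)
      (l' := ⟨l, by simp at hl; omega⟩) rfl)) (hat l.reverse) []
    refine .trans ?_ (ih (by simp at hl; omega))
    simpa using h1

theorem pop_words (js : List A) :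
    To U V (hat (js.reverse.flatMap fun i => (V i).val.reverse) ++ [.rh (.E t0)] ++ idx js)
      [.rh (.E t0)] := by
  induction js with
  | nil => simpa using .refl
  | cons i js ih =>
    have h1 := one (U := U) (V := V) (.ra .q)
      (hat ((i :: js).reverse.flatMap fun i => (V i).val.reverse)) (.rd (.j i) :: idx js)
    have h2 := one (U := U) (V := V) (.ra (.j i))
      (hat ((i :: js).reverse.flatMap fun i => (V i).val.reverse)) (idx js)
    have h3 := steps_append (pop_word (U := U) (V := V) (V i))
      (hat (js.reverse.flatMap fun i => (V i).val.reverse)) (idx js)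
    simp only [List.append_assoc, List.cons_append, List.nil_append, hat_append,
      List.append_nil, List.reverse_cons, List.flatMap_append, List.flatMap_cons,
      List.flatMap_nil, idx_cons] at *
    exact h1.trans (h2.trans (h3.trans ih))

theorem run_g_right {w y : List X} {js : List A}
    (h : y = w ++ js.reverse.flatMap fun i => (V i).val.reverse) :
    To U V ([.rh .D0] ++ gw y js) ([.ls .b] ++ hat w ++ [.rh .E0]) := by
  have h1 := one (U := U) (V := V) (.rc .o) [] (raw y ++ [.rd .d] ++ idx js ++ [.rd .q, .rd .o'])
  have h2 := steps_append (push_word (U := U) (V := V) y) [.ls .b]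
    ([.rd .d] ++ idx js ++ [.rd .q, .rd .o'])
  have h3 := one (U := U) (V := V) (.ra .d) ([.ls .b] ++ hat y) (idx js ++ [.rd .q, .rd .o'])
  have h4 := steps_append (pop_words (U := U) (V := V) js) ([.ls .b] ++ hat w)
    [.rd .q, .rd .o']
  have h5 := one (U := U) (V := V) (.ra .q) ([.ls .b] ++ hat w) [.rd .o']
  have h6 := one (U := U) (V := V) (.ra .o) ([.ls .b] ++ hat w) []
  subst h
  simp only [gw, List.append_assoc, List.cons_append, List.nil_append, hat_append,
    List.append_nil] at *
  exact h1.trans (h2.trans (h3.trans (h4.trans (h5.trans h6))))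

theorem run_e (w : List X) :
    To U V (hat w ++ [.rh .E2] ++ List.replicate w.length (.rd .e)) [.rh .E2] := by
  induction w using List.reverseRecOn with
  | nil => simpa using .refl
  | append_singleton w a ih =>
    have h1 := one (U := U) (V := V) (.ra .e) (hat (w ++ [a])) (List.replicate w.length (.rd .e))
    have h2 := one (U := U) (V := V) (.rb (.y a)) (hat w) (List.replicate w.length (.rd .e))
    refine .trans ?_ ih
    refine .trans ?_ h2
    simpa [List.replicate_succ] using h1

theorem run_h_right (w : List X) :
    To U V ([.ls .b] ++ hat w ++ [.rh .E0] ++ hw w.length) [.rh .D0] := by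
  have h1 := one (U := U) (V := V) (.ra .s) ([.ls .b] ++ hat w)
    (List.replicate w.length (.rd .e) ++ [.rd .t])
  have h2 := steps_append (run_e (U := U) (V := V) w) [.ls .b] [.rd .t]
  have h3 := one (U := U) (V := V) (.ra .t) [.ls .b] []
  have h4 := one (U := U) (V := V) (.rb .b) [] []
  simp only [hw, List.append_assoc, List.cons_append, List.nil_append,
    List.append_nil] at *
  exact h1.trans (h2.trans (h3.trans h4))

/-! ### left-moving heads -/

theorem push_idx (js : List A) : To U V (idx js ++ [.lh .P]) ([.lh .P] ++ jst js) := by
  induction js using List.reverseRecOn with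
  | nil => exact .refl
  | append_singleton js i ih =>
    have h1 := one (U := U) (V := V) (.lc (.j i)) (idx js) []
    have h2 := steps_append ih [] [.rs (.j i)]
    simp only [List.append_nil, List.nil_append, List.append_assoc, idx_append, idx_cons, idx_nil,
      jst_append, jst_cons, jst_nil, List.cons_append] at *
    exact h1.trans h2

theorem lpop_word (l : Tp X L) : To U V (raw l.val.reverse ++ [.lh (.F l)]) [.lh (.F t0)] := by
  obtain ⟨l, hl⟩ := l
  induction l with
  | nil => exact .refl
  | cons a l ih =>
    have h1 := one (U := U) (V := V) (.la (.p (l := ⟨a :: l, hl⟩) (by simp)))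
      (raw l.reverse ++ [.rd (.x a)]) []
    have h2 := one (U := U) (V := V) (.la (.x (a := a) (l := ⟨a :: l, hl⟩)
      (l' := ⟨l, by simp at hl; omega⟩) rfl)) (raw l.reverse) []
    have h3 := ih (by simp at hl; omega)
    simp only [List.append_nil, List.nil_append, List.append_assoc, List.reverse_cons,
      raw_append, raw_cons, raw_nil, List.cons_append] at *
    exact h1.trans (h2.trans h3)

theorem lpop_words (js : List A) :
    To U V (raw (js.reverse.flatMap fun i => (U i).val.reverse) ++ [.lh (.F t0)] ++ jst js ++
      [.rs .c]) [.lh .F1] := by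
  induction js with
  | nil =>
    have := one (U := U) (V := V) (.lb .c) [] []
    simpa using this
  | cons i js ih =>
    have h1 := one (U := U) (V := V) (.lb (.j i))
      (raw ((i :: js).reverse.flatMap fun i => (U i).val.reverse)) (jst js ++ [.rs .c])
    have h3 := steps_append (lpop_word (U := U) (V := V) (U i))
      (raw (js.reverse.flatMap fun i => (U i).val.reverse)) (jst js ++ [.rs .c])
    refine .trans ?_ ih
    simp only [List.append_nil, List.nil_append, List.append_assoc, List.reverse_cons,
      List.flatMap_append, List.flatMap_cons, List.flatMap_nil,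
      raw_append, List.cons_append, jst_cons] at *
    exact h1.trans h3

theorem run_g_left {y : List X} {js : List A}
    (h : y = js.reverse.flatMap fun i => (U i).val.reverse) :
    To U V (gw y js ++ [.lh .P0]) [.lh .F0] := by
  have h1 := one (U := U) (V := V) (.lc .o) ([.rd .o, .rd .p] ++ raw y ++ [.rd .d] ++ idx js) []
  have h2 := steps_append (push_idx (U := U) (V := V) js)
    ([.rd .o, .rd .p] ++ raw y ++ [.rd .d]) [.rs .c]
  have h3 := one (U := U) (V := V) (.la .d) ([.rd .o, .rd .p] ++ raw y) (jst js ++ [.rs .c])
  have h4 := steps_append (lpop_words (U := U) (V := V) js) [.rd .o, .rd .p] []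
  have h5 := one (U := U) (V := V) (.la .p1) [.rd .o] []
  have h6 := one (U := U) (V := V) (.la .o1) [] []
  subst h
  simp only [gw, List.append_assoc, List.cons_append, List.nil_append,
    List.append_nil] at *
  exact h1.trans (h2.trans (h3.trans (h4.trans (h5.trans h6))))

theorem lrun_e (n : ℕ) : To U V (List.replicate n (.rd .e) ++ [.lh .P2]) [.lh .P2] := by
  induction n with
  | zero => exact .refl
  | succ n ih =>
    have h1 := one (U := U) (V := V) (.la .e) (List.replicate n (.rd .e)) []
    refine .trans ?_ ih
    rw [List.replicate_succ']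
    simpa using h1

theorem run_h_left (n : ℕ) : To U V (hw n ++ [.lh .F0]) [.lh .P0] := by
  have h1 := one (U := U) (V := V) (.la .t) ([.rd .s] ++ List.replicate n (.rd .e)) []
  have h2 := steps_append (lrun_e (U := U) (V := V) n) [.rd .s] []
  have h3 := one (U := U) (V := V) (.la .s) [] []
  simp only [hw, List.append_assoc, List.cons_append, List.nil_append,
    List.append_nil] at *
  exact h1.trans (h2.trans h3)

end Pool.Agent.X238.Ccj
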