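import Pool.Agent.X238.Ccj.Defs

set_option autoImplicit false

/-!
# Critical pairs, and `c`-conjugacy in terms of words
-/

namespace Pool.Agent.X238.Ccj

open Pool.Agent.X238.Mcs Relation

variable {S : Type} {R : Set (List S × List S)}

theorem step_length (hR : LengthReducing R) {u v : List S} (h : Step R u v) :
    v.length < u.length := by
  obtain ⟨a, b, x, y, hxy, rfl, rfl⟩ := h
  have := hR _ hxy
  simp at this ⊢
  exact this

/-- Newman's lemma for length-reducing systems -/
theorem newman (hR : LengthReducing R)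
    (hl : ∀ u v w, Step R u v → Step R u w → Jn R v w) : Confluent R := by
  have key : ∀ n, ∀ u : List S, u.length = n → ∀ v w, ReflTransGen (Step R) u v →
      ReflTransGen (Step R) u w →
      ∃ z, ReflTransGen (Step R) v z ∧ ReflTransGen (Step R) w z := by
    intro n
    induction n using Nat.strong_induction_on with
    | _ n ih =>
      intro u hu v w huv huw
      rcases ReflTransGen.cases_head huv with rfl | ⟨v1, h1, h2⟩
      · exact ⟨w, huw, .refl⟩
      rcases ReflTransGen.cases_head huw with rfl | ⟨w1, h3, h4⟩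
      · exact ⟨v, .refl, huv⟩
      obtain ⟨x, h5, h6⟩ := hl _ _ _ h1 h3
      have l1 := step_length hR h1
      have l3 := step_length hR h3
      obtain ⟨y, h7, h8⟩ := ih v1.length (by omega) v1 rfl v x h2 h5
      obtain ⟨t, h9, h10⟩ := ih w1.length (by omega) w1 rfl y w (h6.trans h8) h4
      exact ⟨t, h7.trans h9, h10⟩
  intro u v w h1 h2
  exact key _ u rfl v w h1 h2

theorem jn_symm {u v : List S} (h : Jn R u v) : Jn R v u := by
  obtain ⟨z, h1, h2⟩ := h
  exact ⟨z, h2, h1⟩

theorem jn_append {u v : List S} (h : Jn R u v) (p q : List S) :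
    Jn R (p ++ u ++ q) (p ++ v ++ q) := by
  obtain ⟨z, h1, h2⟩ := h
  exact ⟨p ++ z ++ q, steps_append h1 p q, steps_append h2 p q⟩

/-- the critical pair lemma -/
theorem local_confluence
    (cp1 : ∀ x y x' y' a b c : List S, (x, y) ∈ R → (x', y') ∈ R → x = a ++ c → x' = c ++ b →
      a ≠ [] → c ≠ [] → b ≠ [] → Jn R (y ++ b) (a ++ y'))
    (cp2 : ∀ x y x' y' a b : List S, (x, y) ∈ R → (x', y') ∈ R → x = a ++ x' ++ b →
      Jn R y (a ++ y' ++ b)) :
    ∀ u v w, Step R u v → Step R u w → Jn R v w := by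
  have key : ∀ a1 b1 x y a2 b2 x' y' : List S, (x, y) ∈ R → (x', y') ∈ R →
      a1 ++ x ++ b1 = a2 ++ x' ++ b2 → a1.length ≤ a2.length →
      Jn R (a1 ++ y ++ b1) (a2 ++ y' ++ b2) := by
    intro a1 b1 x y a2 b2 x' y' h1 h2 e hl
    rw [List.append_assoc, List.append_assoc] at e
    obtain ⟨m, rfl, e1⟩ : ∃ m, a2 = a1 ++ m ∧ x ++ b1 = m ++ (x' ++ b2) := by
      rcases List.append_eq_append_iff.1 e with ⟨m, h1, h2⟩ | ⟨m, h1, h2⟩
      · exact ⟨m, h1, h2⟩
      · have : m = [] := by
          rw [h1, List.length_append] at hl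
          exact List.length_eq_zero_iff.1 (by omega)
        subst this
        exact ⟨[], by simpa using h1.symm, by simpa using h2.symm⟩
    -- disjoint redexes
    have disj : ∀ k, m = x ++ k → b1 = k ++ (x' ++ b2) →
        Jn R (a1 ++ y ++ b1) (a1 ++ m ++ y' ++ b2) := by
      rintro k rfl rfl
      refine ⟨a1 ++ y ++ k ++ y' ++ b2, ?_, ?_⟩
      · exact .single ⟨a1 ++ y ++ k, b2, x', y', h2, by simp, by simp⟩
      · exact .single ⟨a1, k ++ y' ++ b2, x, y, h1, by simp, by simp⟩
    rcases List.append_eq_append_iff.1 e1 with ⟨k, h3, h4⟩ | ⟨c, h3, h4⟩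
    · exact disj k h3 h4
    · by_cases hc : c = []
      · subst hc
        exact disj [] (by simpa using h3.symm) (by simpa using h4.symm)
      rcases List.append_eq_append_iff.1 h4 with ⟨k, h5, h6⟩ | ⟨k, h5, h6⟩
      · -- c = x' ++ k, b2 = k ++ b1 : inclusion
        have hj := cp2 x y x' y' m k h1 h2 (by rw [h3, h5]; simp)
        have := jn_append hj a1 b1
        rw [h6]
        simpa using this
      · -- x' = c ++ k, b1 = k ++ b2
        by_cases hm : m = []
        · subst hm
          -- x' contains x as a prefix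
          simp only [List.nil_append] at h3
          have hj := cp2 x' y' x y [] k h2 h1 (by rw [h5, h3]; simp)
          have := jn_symm (jn_append hj a1 b2)
          rw [h6]
          simpa using this
        by_cases hk : k = []
        · subst hk
          have hj := cp2 x y x' y' m [] h1 h2 (by rw [h3, h5]; simp)
          have := jn_append hj a1 b2
          rw [h6]
          simpa using this
        have hj := cp1 x y x' y' m k c h1 h2 h3 h5 hm hc hk
        have := jn_append hj a1 b2
        rw [h6]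
        simpa using this
  rintro u v w ⟨a1, b1, x, y, h1, rfl, rfl⟩ ⟨a2, b2, x', y', h2, e, rfl⟩
  rcases le_total a1.length a2.length with hl | hl
  · exact key _ _ _ _ _ _ _ _ h1 h2 e hl
  · exact jn_symm (key _ _ _ _ _ _ _ _ h2 h1 e.symm hl)

/-- irreducible words -/
def Irr (R : Set (List S × List S)) (u : List S) : Prop := ∀ v, ¬ Step R u v

theorem irr_steps {u v : List S} (hu : Irr R u) (h : ReflTransGen (Step R) u v) : v = u := by
  rcases ReflTransGen.cases_head h with rfl | ⟨w, h1, -⟩
  · rfl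
  · exact absurd h1 (hu w)

theorem exists_nf (hR : LengthReducing R) (u : List S) :
    ∃ v, ReflTransGen (Step R) u v ∧ Irr R v := by
  have key : ∀ n, ∀ u : List S, u.length = n → ∃ v, ReflTransGen (Step R) u v ∧ Irr R v := by
    intro n
    induction n using Nat.strong_induction_on with
    | _ n ih =>
      intro u hu
      by_cases h : ∃ v, Step R u v
      · obtain ⟨v, hv⟩ := h
        have := step_length hR hv
        obtain ⟨w, h1, h2⟩ := ih v.length (by omega) v rfl
        exact ⟨w, .head hv h1, h2⟩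
      · exact ⟨u, .refl, fun v hv => h ⟨v, hv⟩⟩
  exact key _ u rfl

theorem irr_eq {u v : List S} (hu : Irr R u) (hv : Irr R v) (h : Jn R u v) : u = v := by
  obtain ⟨z, h1, h2⟩ := h
  rw [← irr_steps hu h1, ← irr_steps hv h2]

theorem jn_trans (hc : Confluent R) {u v w : List S} (h : Jn R u v) (h' : Jn R v w) :
    Jn R u w := (cls_eq_iff hc _ _).1 (((cls_eq_iff hc _ _).2 h).trans ((cls_eq_iff hc _ _).2 h'))

theorem jn_of {u v : List S} (h : ReflTransGen (Step R) u v) : Jn R u v := ⟨v, h, .refl⟩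

/-- `c`-conjugacy of nonzero elements in terms of words -/
theorem cconj_iff (hc : Confluent R) {z : S} (hz : ∀ c : S, ([z, c], [z]) ∈ R ∧ ([c, z], [z]) ∈ R)
    {a b : List S} (ha : ¬ Jn R a [z]) (hb : ¬ Jn R b [z]) :
    CConj (cls R a) (cls R b) ↔
      ∃ g h : List S, (∀ m, Jn R (m ++ a ++ g) [z] → Jn R (m ++ a) [z]) ∧
        (∀ m, Jn R (m ++ b ++ h) [z] → Jn R (m ++ b) [z]) ∧
        Jn R (a ++ g) (g ++ b) ∧ Jn R (b ++ h) (h ++ a) := by
  have hz0 : IsZ (cls R [z]) := by
    intro x
    obtain ⟨u, rfl⟩ := cls_surj x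
    rw [← cls_append, ← cls_append, cls_eq_iff hc, cls_eq_iff hc]
    constructor
    · induction u with
      | nil => exact ⟨_, .refl, .refl⟩
      | cons c u ih =>
        refine jn_trans hc ?_ ih
        exact jn_of (.single ⟨[], u, _, _, (hz c).1, by simp, by simp⟩)
    · induction u using List.reverseRecOn with
      | nil => exact ⟨_, .refl, .refl⟩
      | append_singleton u c ih =>
        refine jn_trans hc ?_ ih
        exact jn_of (.single ⟨u, [], _, _, (hz c).2, by simp, by simp⟩)
  have huniq : ∀ w : Mon R, IsZ w → w = cls R [z] := by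
    intro w hw
    rw [← (hw (cls R [z])).1, (hz0 w).2]
  have hP : ∀ a : List S, ¬ Jn R a [z] → ∀ g : List S, cls R g ∈ PSet (cls R a) ↔
      ∀ m, Jn R (m ++ a ++ g) [z] → Jn R (m ++ a) [z] := by
    intro a ha g
    constructor
    · intro h m hm
      have h1 := (h _ hz0).2 (fun e => ha ((cls_eq_iff hc _ _).1 e)) (cls R m)
      rw [← cls_append, ← cls_append, cls_eq_iff hc, cls_eq_iff hc] at h1
      exact h1 hm
    · intro h w hw
      obtain rfl := huniq w hw
      refine ⟨fun e => absurd ((cls_eq_iff hc _ _).1 e) ha, fun _ m hm => ?_⟩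
      obtain ⟨m, rfl⟩ := cls_surj m
      rw [← cls_append, ← cls_append, cls_eq_iff hc] at hm
      rw [← cls_append, cls_eq_iff hc]
      exact h m hm
  constructor
  · rintro ⟨g, hg, h, hh, h1, h2⟩
    obtain ⟨g, rfl⟩ := cls_surj g
    obtain ⟨h, rfl⟩ := cls_surj h
    rw [← cls_append, ← cls_append, cls_eq_iff hc] at h1 h2
    exact ⟨g, h, (hP a ha g).1 hg, (hP b hb h).1 hh, h1, h2⟩
  · rintro ⟨g, h, hg, hh, h1, h2⟩
    refine ⟨cls R g, (hP a ha g).2 hg, cls R h, (hP b hb h).2 hh, ?_, ?_⟩
    · rw [← cls_append, ← cls_append, cls_eq_iff hc]; exact h1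
    · rw [← cls_append, ← cls_append, cls_eq_iff hc]; exact h2

/-! ### positions of a redex -/

/-- an occurrence of `x` in `g ++ c :: r` -/
theorem occ {a b x g r : List S} {c : S} (h : a ++ x ++ b = g ++ c :: r) :
    (∃ k, g = a ++ x ++ k) ∨ (∃ k, r = k ++ x ++ b ∧ a = g ++ c :: k) ∨
      ∃ x1 x2, x = x1 ++ c :: x2 ∧ g = a ++ x1 ∧ r = x2 ++ b := by
  rcases List.append_eq_append_iff.1 h with ⟨k, h1, h2⟩ | ⟨k, h1, h2⟩
  · exact Or.inl ⟨k, h1⟩
  · -- a ++ x = g ++ k, c :: r = k ++ b
    cases k with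
    | nil => exact Or.inl ⟨[], by simpa using h1.symm⟩
    | cons c' k =>
      simp only [List.cons_append, List.cons.injEq] at h2
      obtain ⟨rfl, rfl⟩ := h2
      rcases List.append_eq_append_iff.1 h1 with ⟨m, h3, h4⟩ | ⟨m, h3, h4⟩
      · -- g = a ++ m, x = m ++ c :: k
        exact Or.inr (Or.inr ⟨m, k, h4, h3, rfl⟩)
      · -- a = g ++ m, c :: k = m ++ x
        cases m with
        | nil =>
          simp only [List.append_nil, List.nil_append] at h3 h4
          exact Or.inr (Or.inr ⟨[], k, by simpa using h4.symm, by simpa using h3.symm, rfl⟩)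
        | cons c' m =>
          simp only [List.cons_append, List.cons.injEq] at h4
          obtain ⟨rfl, rfl⟩ := h4
          exact Or.inr (Or.inl ⟨m, by simp, h3⟩)

/-- an occurrence of `x` in `u ++ v` -/
theorem occ2 {a b x u v : List S} (h : a ++ x ++ b = u ++ v) :
    (∃ k, u = a ++ x ++ k ∧ b = k ++ v) ∨ (∃ k, v = k ++ x ++ b ∧ a = u ++ k) ∨
      ∃ x1 x2, x = x1 ++ x2 ∧ x1 ≠ [] ∧ x2 ≠ [] ∧ u = a ++ x1 ∧ v = x2 ++ b := by
  rcases List.append_eq_append_iff.1 h with ⟨k, h1, h2⟩ | ⟨k, h1, h2⟩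
  · exact Or.inl ⟨k, h1, h2⟩
  · -- a ++ x = u ++ k, v = k ++ b
    by_cases hk : k = []
    · subst hk
      exact Or.inl ⟨[], by simpa using h1.symm, by simpa using h2.symm⟩
    rcases List.append_eq_append_iff.1 h1 with ⟨m, h3, h4⟩ | ⟨m, h3, h4⟩
    · -- u = a ++ m, x = m ++ k
      by_cases hm : m = []
      · subst hm
        simp only [List.nil_append, List.append_nil] at h3 h4
        exact Or.inr (Or.inl ⟨[], by simp [h2, h4], by simp [h3]⟩)
      · exact Or.inr (Or.inr ⟨m, k, h4, hm, hk, h3, h2⟩)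
    · -- a = u ++ m, k = m ++ x
      exact Or.inr (Or.inl ⟨m, by rw [h2, h4], h3⟩)

end Pool.Agent.X238.Ccj
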