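import Pool.Agent.X238.Ccj.Rw

set_option autoImplicit false
set_option linter.unnecessarySeqFocus false

/-!
# The system

Heads `rh` read letters `rd` on their right and keep a stack of letters `ls` on their left, heads
`lh` read letters `rd` on their left and keep a stack of letters `rs` on their right. A head `rh`
followed by a head `lh` is zero.
-/

namespace Pool.Agent.X238.Ccj

open Pool.Agent.X238.Mcs Relation

/-- words of length at most `L` -/
abbrev Tp (X : Type) (L : ℕ) : Type := {r : List X // r.length ≤ L}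

/-- the empty word -/
def t0 {X : Type} {L : ℕ} : Tp X L := ⟨[], Nat.zero_le _⟩

@[simp] theorem t0_val {X : Type} {L : ℕ} : (t0 : Tp X L).val = [] := rfl

theorem eq_t0 {X : Type} {L : ℕ} {t : Tp X L} (h : t.val = []) : t = t0 := Subtype.ext h

/-- right-moving heads -/
inductive RH (X : Type) (L : ℕ) : Type
  | D0 | D | E (t : Tp X L) | E0 | E2 | E3 | E4

/-- left-moving heads -/
inductive LH (X : Type) (L : ℕ) : Type
  | P0 | P | F (t : Tp X L) | F1 | F0 | P2

/-- letters that are read -/
inductive Rd (A X : Type) : Type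
  | o | p | x (a : X) | d | q | j (i : A) | o' | s | e | t

/-- letters of the left stack -/
inductive LS (X : Type) : Type
  | b | x (a : X)

/-- letters of the right stack -/
inductive RS (A : Type) : Type
  | c | j (i : A)

/-- all letters -/
inductive Lt (A X : Type) (L : ℕ) : Type
  | z
  | rh (h : RH X L)
  | lh (h : LH X L)
  | rd (r : Rd A X)
  | ls (s : LS X)
  | rs (s : RS A)

variable {A X : Type} {L : ℕ}

/-- a right-moving head reads a letter -/
inductive RA (V : A → Tp X L) : RH X L → Rd A X → RH X L → Prop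
  | d : RA V .D .d (.E t0)
  | q : RA V (.E t0) .q (.E t0)
  | j (i : A) : RA V (.E t0) (.j i) (.E (V i))
  | o : RA V (.E t0) .o' .E0
  | s : RA V .E0 .s .E2
  | e : RA V .E2 .e .E3
  | t : RA V .E2 .t .E4

/-- a right-moving head pops a letter -/
inductive RB : LS X → RH X L → RH X L → Prop
  | x {a : X} {l l' : Tp X L} : l.val = a :: l'.val → RB (.x a) (.E l) (.E l')
  | y (a : X) : RB (.x a) .E3 .E2
  | b : RB .b .E4 .D0

/-- a right-moving head reads a letter and `p`, and pushes a letter -/
inductive RC : RH X L → Rd A X → LS X → RH X L → Prop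
  | o : RC .D0 .o .b .D
  | x (a : X) : RC .D (.x a) (.x a) .D

/-- a left-moving head reads a letter -/
inductive LA : Rd A X → LH X L → Lt A X L → Prop
  | d : LA .d .P (.lh (.F t0))
  | p {l : Tp X L} : l.val ≠ [] → LA .p (.F l) (.lh (.F l))
  | x {a : X} {l l' : Tp X L} : l.val = a :: l'.val → LA (.x a) (.F l) (.lh (.F l'))
  | xz {a : X} {l : Tp X L} : l.val ≠ [] → (∀ l', l.val ≠ a :: l') → LA (.x a) (.F l) .z
  | oz {l : Tp X L} : l.val ≠ [] → LA .o (.F l) .z
  | p1 : LA .p .F1 (.lh .F1)
  | o1 : LA .o .F1 (.lh .F0)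
  | x1 (a : X) : LA (.x a) .F1 .z
  | t : LA .t .F0 (.lh .P2)
  | e : LA .e .P2 (.lh .P2)
  | s : LA .s .P2 (.lh .P0)

/-- a left-moving head pops a letter -/
inductive LB (U : A → Tp X L) : LH X L → RS A → LH X L → Prop
  | j (i : A) : LB U (.F t0) (.j i) (.F (U i))
  | c : LB U (.F t0) .c .F1

/-- a left-moving head reads a letter and `q`, and pushes a letter -/
inductive LC : Rd A X → LH X L → LH X L → RS A → Prop
  | o : LC .o' .P0 .P .c
  | j (i : A) : LC (.j i) .P .P (.j i)

/-- The rules. -/
inductive Rl (U V : A → Tp X L) : List (Lt A X L) → List (Lt A X L) → Prop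
  | zl (c : Lt A X L) : Rl U V [.z, c] [.z]
  | zr (c : Lt A X L) : Rl U V [c, .z] [.z]
  | zz (h : RH X L) (h' : LH X L) : Rl U V [.rh h, .lh h'] [.z]
  | ra {h : RH X L} {r : Rd A X} {h' : RH X L} : RA V h r h' → Rl U V [.rh h, .rd r] [.rh h']
  | rb {s : LS X} {h h' : RH X L} : RB s h h' → Rl U V [.ls s, .rh h] [.rh h']
  | rc {h : RH X L} {r : Rd A X} {s : LS X} {h' : RH X L} : RC h r s h' →
      Rl U V [.rh h, .rd r, .rd .p] [.ls s, .rh h']
  | la {r : Rd A X} {h : LH X L} {k : Lt A X L} : LA r h k → Rl U V [.rd r, .lh h] [k]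
  | lb {h : LH X L} {s : RS A} {h' : LH X L} : LB U h s h' → Rl U V [.lh h, .rs s] [.lh h']
  | lc {r : Rd A X} {h h' : LH X L} {s : RS A} : LC r h h' s →
      Rl U V [.rd .q, .rd r, .lh h] [.lh h', .rs s]

/-- The system. -/
def Sy (U V : A → Tp X L) : Set (List (Lt A X L) × List (Lt A X L)) := {p | Rl U V p.1 p.2}

variable {U V : A → Tp X L}

theorem lenred : LengthReducing (Sy U V) := by
  rintro ⟨x, y⟩ h
  change Rl U V x y at h
  cases h <;> simp

theorem st {a b x y u v : List (Lt A X L)} (h : Rl U V x y) (hu : u = a ++ x ++ b)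
    (hv : v = a ++ y ++ b) : Step (Sy U V) u v := ⟨a, b, x, y, h, hu, hv⟩

/-- words with a zero -/
theorem to_z {u : List (Lt A X L)} (h : Lt.z ∈ u) : ReflTransGen (Step (Sy U V)) u [.z] := by
  obtain ⟨a, b, rfl⟩ := List.append_of_mem h
  have h1 : ∀ b : List (Lt A X L), ReflTransGen (Step (Sy U V)) (.z :: b) [.z] := by
    intro b
    induction b with
    | nil => exact .refl
    | cons c b ih => exact .head (st (a := []) (b := b) (.zl c) (by simp) (by simp)) ih
  have h2 : ∀ a : List (Lt A X L), ReflTransGen (Step (Sy U V)) (a ++ [.z]) [.z] := by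
    intro a
    induction a using List.reverseRecOn with
    | nil => exact .refl
    | append_singleton a c ih =>
      exact .head (st (a := a) (b := []) (.zr c) (by simp) (by simp)) ih
  refine ReflTransGen.trans ?_ (h2 a)
  simpa using steps_append (h1 b) a []

theorem jn_z {u v : List (Lt A X L)} (hu : Lt.z ∈ u) (hv : Lt.z ∈ v) : Jn (Sy U V) u v :=
  ⟨[.z], to_z hu, to_z hv⟩

theorem rl_z {x y : List (Lt A X L)} (h : Rl U V x y) (hx : Lt.z ∈ x) : Lt.z ∈ y := by
  cases h <;> simp_all

theorem to_z_head {a b : List (Lt A X L)} (h : RH X L) (h' : LH X L) :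
    ReflTransGen (Step (Sy U V)) (a ++ [.rh h, .lh h'] ++ b) [.z] :=
  .head (st (.zz h h') rfl rfl) (to_z (by simp))

theorem RA.det {h : RH X L} {r : Rd A X} {h1 h2 : RH X L} (a : RA V h r h1) (b : RA V h r h2) :
    h1 = h2 := by
  cases a <;> cases b <;> rfl

theorem tp_cons {l l' l'' : Tp X L} {a : X} (h : l.val = a :: l'.val) (h' : l.val = a :: l''.val) :
    l' = l'' := Subtype.ext (List.cons_injective (h.symm.trans h'))

theorem RB.det {s : LS X} {h h1 h2 : RH X L} (a : RB s h h1) (b' : RB s h h2) : h1 = h2 := by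
  cases a with
  | x h => cases b' with
    | x h' => rw [tp_cons h h']
  | y => cases b'; rfl
  | b => cases b'; rfl

theorem RC.det {h : RH X L} {r : Rd A X} {h1 h2 : RH X L} {s1 s2 : LS X} (a : RC h r s1 h1)
    (b : RC h r s2 h2) : s1 = s2 ∧ h1 = h2 := by
  cases a <;> cases b <;> exact ⟨rfl, rfl⟩

theorem LA.det {r : Rd A X} {h : LH X L} {k1 k2 : Lt A X L} (a : LA r h k1) (b : LA r h k2) :
    k1 = k2 := by
  cases a with
  | x h => cases b with
    | x h' => rw [tp_cons h h']
    | xz h1 h2 => exact absurd h (h2 _)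
  | xz h1 h2 => cases b with
    | x h' => exact absurd h' (h2 _)
    | xz h1 h2 => rfl
  | _ => cases b; rfl

theorem LB.det {s : RS A} {h h1 h2 : LH X L} (a : LB U h s h1) (b : LB U h s h2) : h1 = h2 := by
  cases a <;> cases b <;> rfl

theorem LC.det {r : Rd A X} {h h1 h2 : LH X L} {s1 s2 : RS A} (a : LC r h h1 s1)
    (b : LC r h h2 s2) : h1 = h2 ∧ s1 = s2 := by
  cases a <;> cases b <;> exact ⟨rfl, rfl⟩

/-- popping and reading heads are different -/
theorem ra_rb {h : RH X L} {r : Rd A X} {h1 h2 : RH X L} {s : LS X} (a : RA V h r h1)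
    (b' : RB s h h2) : False := by
  cases a <;> cases b'
  all_goals simp_all

theorem rc_rb {h : RH X L} {r : Rd A X} {h1 h2 : RH X L} {s s' : LS X} (a : RC h r s' h1)
    (b' : RB s h h2) : False := by
  cases a <;> cases b'

theorem rc_ra {h : RH X L} {r : Rd A X} {h1 h2 : RH X L} {s' : LS X} (a : RC h r s' h1)
    (b : RA V h r h2) : False := by
  cases a <;> cases b

theorem la_lb {h : LH X L} {r : Rd A X} {k : Lt A X L} {h2 : LH X L} {s : RS A} (a : LA r h k)
    (b : LB U h s h2) : False := by
  cases b <;> cases a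
  all_goals simp_all

theorem lc_lb {h : LH X L} {r : Rd A X} {h1 h2 : LH X L} {s s' : RS A} (a : LC r h h1 s')
    (b : LB U h s h2) : False := by
  cases a <;> cases b

theorem lc_la {h : LH X L} {r : Rd A X} {h1 : LH X L} {s : RS A} {k : Lt A X L} (a : LC r h h1 s)
    (b : LA r h k) : False := by
  cases a <;> cases b

theorem ra_lc {h h1 : RH X L} {r : Rd A X} {h' h2 : LH X L} {s : RS A} (a : RA V h .q h1)
    (b : LC r h' h2 s) : ∃ h3, RA V h1 r h3 := by
  cases a
  cases b
  · exact ⟨_, .o⟩
  · exact ⟨_, .j _⟩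

theorem rc_la {h h1 : RH X L} {r : Rd A X} {s : LS X} {h' : LH X L} {k : Lt A X L}
    (a : RC h r s h1) (b : LA .p h' k) : ∃ h2 k', k = .lh h2 ∧ LA r h2 k' := by
  classical
  cases b with
  | p hl =>
    rename_i l
    refine ⟨.F l, ?_⟩
    cases a with
    | o => exact ⟨_, rfl, .oz hl⟩
    | x a =>
      rcases l with ⟨l, hL⟩
      cases l with
      | nil => exact absurd rfl hl
      | cons b l =>
        by_cases hab : b = a
        · subst hab
          exact ⟨_, rfl, .x (l' := ⟨l, by simp at hL; omega⟩) rfl⟩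
        · exact ⟨_, rfl, .xz hl (by intro l' h; simp at h; exact hab h.1)⟩
  | p1 =>
    cases a with
    | o => exact ⟨_, _, rfl, .o1⟩
    | x a => exact ⟨_, _, rfl, .x1 a⟩

theorem LA.cases' {r : Rd A X} {h : LH X L} {k : Lt A X L} (a : LA r h k) :
    k = .z ∨ ∃ h', k = .lh h' := by
  cases a <;> simp

theorem to_z_la {r : Rd A X} {h' : LH X L} {k : Lt A X L} (h : RH X L) (b : LA r h' k)
    (u v : List (Lt A X L)) :
    ReflTransGen (Step (Sy U V)) (u ++ [.rh h, .rd r, .lh h'] ++ v) [.z] := by
  refine .head (st (a := u ++ [.rh h]) (b := v) (.la b) (by simp) rfl) ?_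
  rcases b.cases' with rfl | ⟨h2, rfl⟩
  · exact to_z (by simp)
  · have := to_z_head (U := U) (V := V) (a := u) (b := v) h h2
    simpa using this

/-! ### confluence -/

theorem two {S : Type} {p q : S} {a c : List S} (h : [p, q] = a ++ c) (ha : a ≠ []) (hc : c ≠ []) :
    a = [p] ∧ c = [q] := by
  match a, c, ha, hc with
  | [a1], c, _, _ => simpa [eq_comm] using h
  | a1 :: a2 :: a3, c1 :: c2, _, _ =>
    have := congrArg List.length h
    simp at this

theorem three {S : Type} {p q r : S} {a c : List S} (h : [p, q, r] = a ++ c) (ha : a ≠ [])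
    (hc : c ≠ []) : (a = [p] ∧ c = [q, r]) ∨ (a = [p, q] ∧ c = [r]) := by
  match a, c, ha, hc with
  | [a1], c, _, _ => left; simpa [eq_comm] using h
  | [a1, a2], c, _, _ => right; simpa [eq_comm, and_assoc] using h
  | a1 :: a2 :: a3 :: a4, c1 :: c2, _, _ =>
    have := congrArg List.length h
    simp at this

theorem cp1 : ∀ x y x' y' a b c : List (Lt A X L), (x, y) ∈ Sy U V → (x', y') ∈ Sy U V →
    x = a ++ c → x' = c ++ b → a ≠ [] → c ≠ [] → b ≠ [] → Jn (Sy U V) (y ++ b) (a ++ y') := by
  intro x y x' y' a b c h h' e e' ha hc hb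
  change Rl U V x y at h
  change Rl U V x' y' at h'
  by_cases hz : Lt.z ∈ a ++ c ++ b
  · -- a zero somewhere
    simp only [List.append_assoc, List.mem_append] at hz
    have h1 : Lt.z ∈ x → Lt.z ∈ y := rl_z h
    have h2 : Lt.z ∈ x' → Lt.z ∈ y' := rl_z h'
    rw [e, List.mem_append] at h1
    rw [e', List.mem_append] at h2
    exact jn_z (by rw [List.mem_append]; tauto) (by rw [List.mem_append]; tauto)
  have hza : Lt.z ∉ a ∧ Lt.z ∉ c ∧ Lt.z ∉ b := by
    simpa [not_or] using hz
  obtain ⟨za, zc, zb⟩ := hza
  cases h with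
  | zl c0 =>
    obtain ⟨rfl, rfl⟩ := two e ha hc
    simp at za
  | zr c0 =>
    obtain ⟨rfl, rfl⟩ := two e ha hc
    simp at zc
  | zz k k' =>
    obtain ⟨rfl, rfl⟩ := two e ha hc
    cases h' with
    | lb hl =>
      simp only [List.cons_append, List.nil_append, List.cons.injEq, Lt.lh.injEq] at e'
      obtain ⟨rfl, rfl⟩ := e'
      exact ⟨[.z], to_z (by simp), to_z_head (a := []) (b := []) k _⟩
    | zr c0 => simp at e'; simp [← e'.2] at zb
    | _ => simp at e'
  | ra hr =>
    obtain ⟨rfl, rfl⟩ := two e ha hc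
    cases h' with
    | la hl =>
      simp only [List.cons_append, List.nil_append, List.cons.injEq, Lt.rd.injEq] at e'
      obtain ⟨rfl, rfl⟩ := e'
      refine ⟨[.z], to_z_head (a := []) (b := []) _ _, ?_⟩
      rcases hl.cases' with rfl | ⟨h2, rfl⟩
      · exact to_z (by simp)
      · exact to_z_head (a := []) (b := []) _ _
    | lc hl =>
      simp only [List.cons_append, List.nil_append, List.cons.injEq, Lt.rd.injEq] at e'
      obtain ⟨rfl, rfl⟩ := e'
      obtain ⟨h3, h4⟩ := ra_lc hr hl
      refine ⟨[.z], ?_, ?_⟩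
      · exact .head (st (a := []) (b := [.lh _]) (.ra h4) rfl rfl)
          (to_z_head (a := []) (b := []) _ _)
      · exact to_z_head (a := []) (b := [_]) _ _
    | zr c0 => simp at e'; simp [← e'.2] at zb
    | _ => simp at e'
  | rb hr =>
    obtain ⟨rfl, rfl⟩ := two e ha hc
    cases h' with
    | zz k k' =>
      simp only [List.cons_append, List.nil_append, List.cons.injEq, Lt.rh.injEq] at e'
      obtain ⟨rfl, rfl⟩ := e'
      exact ⟨[.z], to_z_head (a := []) (b := []) _ _, to_z (by simp)⟩
    | ra hl =>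
      simp only [List.cons_append, List.nil_append, List.cons.injEq, Lt.rh.injEq] at e'
      obtain ⟨rfl, rfl⟩ := e'
      exact (ra_rb hl hr).elim
    | rc hl =>
      simp only [List.cons_append, List.nil_append, List.cons.injEq, Lt.rh.injEq] at e'
      obtain ⟨rfl, rfl⟩ := e'
      exact (rc_rb hl hr).elim
    | zr c0 => simp at e'; simp [← e'.2] at zb
    | _ => simp at e'
  | rc hr =>
    rcases three e ha hc with ⟨rfl, rfl⟩ | ⟨rfl, rfl⟩
    · cases h' with
      | lc hl =>
        simp only [List.cons_append, List.nil_append, List.cons.injEq, Lt.rd.injEq] at e'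
        obtain ⟨rfl, rfl, rfl⟩ := e'
        cases hr
      | _ => simp at e'
    · cases h' with
      | la hl =>
        simp only [List.cons_append, List.nil_append, List.cons.injEq, Lt.rd.injEq] at e'
        obtain ⟨rfl, rfl⟩ := e'
        obtain ⟨h2, k', rfl, h3⟩ := rc_la hr hl
        exact ⟨[.z], to_z_head (a := [_]) (b := []) _ _, to_z_la (u := []) (v := []) _ h3⟩
      | lc hl => simp at e'
      | zr c0 => simp at e'; simp [← e'.2] at zb
      | _ => simp at e'
  | la hr =>
    obtain ⟨rfl, rfl⟩ := two e ha hc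
    cases h' with
    | lb hl =>
      simp only [List.cons_append, List.nil_append, List.cons.injEq, Lt.lh.injEq] at e'
      obtain ⟨rfl, rfl⟩ := e'
      exact (la_lb hr hl).elim
    | zr c0 => simp at e'; simp [← e'.2] at zb
    | _ => simp at e'
  | lb hr =>
    obtain ⟨rfl, rfl⟩ := two e ha hc
    cases h' with
    | zr c0 => simp at e'; simp [← e'.2] at zb
    | _ => simp at e'
  | lc hr =>
    rcases three e ha hc with ⟨rfl, rfl⟩ | ⟨rfl, rfl⟩
    · cases h' with
      | la hl =>
        simp only [List.cons_append, List.nil_append, List.cons.injEq] at e'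
        exact absurd e'.2.2.symm hb
      | _ => simp at e'
    · cases h' with
      | lb hl =>
        simp only [List.cons_append, List.nil_append, List.cons.injEq, Lt.lh.injEq] at e'
        obtain ⟨rfl, rfl⟩ := e'
        exact (lc_lb hr hl).elim
      | zr c0 => simp at e'; simp [← e'.2] at zb
      | _ => simp at e'

theorem rl_det {x y y' : List (Lt A X L)} (h : Rl U V x y) (h' : Rl U V x y') : y = y' := by
  cases h with
  | zl c0 => cases h' <;> rfl
  | zr c0 => cases h' <;> rfl
  | zz k k' => cases h' <;> rfl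
  | ra hr => cases h' with
    | ra hl => rw [hr.det hl]
  | rb hr => cases h' with
    | rb hl => rw [hr.det hl]
  | rc hr => cases h' with
    | rc hl => obtain ⟨rfl, rfl⟩ := hr.det hl; rfl
  | la hr => cases h' with
    | la hl => rw [hr.det hl]
  | lb hr => cases h' with
    | lb hl => rw [hr.det hl]
  | lc hr => cases h' with
    | lc hl => obtain ⟨rfl, rfl⟩ := hr.det hl; rfl

theorem rl_len {x y : List (Lt A X L)} (h : Rl U V x y) : 2 ≤ x.length ∧ x.length ≤ 3 := by
  cases h <;> simp

theorem cp2 : ∀ x y x' y' a b : List (Lt A X L), (x, y) ∈ Sy U V → (x', y') ∈ Sy U V →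
    x = a ++ x' ++ b → Jn (Sy U V) y (a ++ y' ++ b) := by
  intro x y x' y' a b h h' e
  change Rl U V x y at h
  change Rl U V x' y' at h'
  by_cases hz : Lt.z ∈ x
  · refine jn_z (rl_z h hz) ?_
    rw [e] at hz
    simp only [List.mem_append] at hz ⊢
    rcases hz with (hz | hz) | hz
    · exact Or.inl (Or.inl hz)
    · exact Or.inl (Or.inr (rl_z h' hz))
    · exact Or.inr hz
  by_cases hab : a = [] ∧ b = []
  · obtain ⟨rfl, rfl⟩ := hab
    simp only [List.nil_append, List.append_nil] at e
    subst e
    rw [rl_det h h']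
    simpa using jn_of .refl
  -- then `x` has length three, `x'` has length two
  exfalso
  have l1 := rl_len h
  have l2 := rl_len h'
  have l3 := congrArg List.length e
  simp only [List.length_append] at l3
  have l4 : a.length = 0 → b.length ≠ 0 := fun h1 h2 =>
    hab ⟨List.length_eq_zero_iff.1 h1, List.length_eq_zero_iff.1 h2⟩
  cases h with
  | rc hr =>
    cases a with
    | nil =>
      cases h' with
      | ra hl =>
        simp only [List.cons_append, List.nil_append, List.cons.injEq, Lt.rh.injEq,
          Lt.rd.injEq] at e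
        obtain ⟨rfl, rfl, _⟩ := e
        exact rc_ra hr hl
      | zl c0 => simp at e
      | zr c0 => simp at e
      | zz k k' => simp at e
      | rb hl => simp at e
      | la hl => simp at e
      | lb hl => simp at e
      | rc hl => simp at l3; simp [l3] at l4
      | lc hl => simp at e
    | cons a1 a2 =>
      simp only [List.cons_append, List.cons.injEq] at e
      obtain ⟨-, e⟩ := e
      cases h' with
      | zl c0 => cases a2 <;> simp at e l3 <;> omega
      | zr c0 => cases a2 <;> simp at e l3 <;> omega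
      | zz k k' => cases a2 <;> simp at e l3 <;> omega
      | ra hl => cases a2 <;> simp at e l3 <;> omega
      | rb hl => cases a2 <;> simp at e l3 <;> omega
      | la hl => cases a2 <;> simp at e l3 <;> omega
      | lb hl => cases a2 <;> simp at e l3 <;> omega
      | rc hl => simp at l3; omega
      | lc hl => simp at l3; omega
  | lc hr =>
    cases a with
    | nil =>
      cases h' with
      | ra hl => simp at e
      | zl c0 => simp at e
      | zr c0 => simp at e
      | zz k k' => simp at e
      | rb hl => simp at e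
      | la hl => simp at e
      | lb hl => simp at e
      | rc hl => simp at e
      | lc hl => simp at l3; simp [l3] at l4
    | cons a1 a2 =>
      simp only [List.cons_append, List.cons.injEq] at e
      obtain ⟨-, e⟩ := e
      cases h' with
      | la hl =>
        cases a2 with
        | nil =>
          simp only [List.nil_append, List.cons_append, List.cons.injEq, Lt.rd.injEq,
            Lt.lh.injEq] at e
          obtain ⟨rfl, rfl, _⟩ := e
          exact lc_la hr hl
        | cons a3 a4 => simp at e l3; omega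
      | zl c0 => cases a2 <;> simp at e l3 <;> omega
      | zr c0 => cases a2 <;> simp at e l3 <;> omega
      | zz k k' => cases a2 <;> simp at e l3 <;> omega
      | ra hl => cases a2 <;> simp at e l3 <;> omega
      | rb hl => cases a2 <;> simp at e l3 <;> omega
      | lb hl => cases a2 <;> simp at e l3 <;> omega
      | rc hl => simp at l3; omega
      | lc hl => simp at l3; omega
  | _ =>
    simp at l3
    omega

theorem conf : Confluent (Sy U V) := newman lenred (local_confluence cp1 cp2)

end Pool.Agent.X238.Ccj
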